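import Pool.Agent.Lib.MP_ef3f0f_gt.U.B.Spec

/-!
# MP_ef3f0f_gt, Theorem U, Part B, module `Box`: the box lemma
-/

set_option autoImplicit false

namespace Pool.Agent.MPEF.U.S

open Matrix Topology
open scoped Pointwise

theorem Box_diag {m : ℕ} {α β : P m} (hα : α ∈ A m) (i : Fin (2 * m + 1)) :
    (α * β).1 i i = α.1 i i * β.1 i i := by
  rw [Matrix.SpecialLinearGroup.coe_mul, Matrix.mul_apply]
  refine Finset.sum_eq_single i (fun k _ hk => ?_) (fun hi => absurd (Finset.mem_univ i) hi)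
  rw [hα.1 i k (Ne.symm hk), zero_mul]

/-- The algebra of one step. -/
theorem Box_alg {G : Type} [Group G] {y α b b' l x β u u₁ v q z : G} (hq : z * q = y * (α * b) * v)
    (hx : l⁻¹ * v * l = x * β * u₁) (hc : β * b = b * β) :
    z * (q * (l * u * b')) = y * ((α * b) * (l * x) * (α * b)⁻¹) * (α * β * (b * b')) *
      (b'⁻¹ * (u₁ * u) * b') := by
  have e1 : (α * b)⁻¹ * (α * β * b) = β := by
    rw [mul_assoc α β b, hc]
    group
  calc z * (q * (l * u * b')) = (z * q) * (l * u * b') := by group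
    _ = y * (α * b) * v * (l * u * b') := by rw [hq]
    _ = y * (α * b) * l * (l⁻¹ * v * l) * u * b' := by group
    _ = y * (α * b) * l * (x * β * u₁) * u * b' := by rw [hx]
    _ = y * (α * b) * (l * x) * β * u₁ * u * b' := by group
    _ = y * (α * b) * (l * x) * ((α * b)⁻¹ * (α * β * b)) * u₁ * u * b' := by rw [e1]
    _ = y * ((α * b) * (l * x) * (α * b)⁻¹) * (α * β * (b * b')) *
      (b'⁻¹ * (u₁ * u) * b') := by group

theorem Box_ind (hn : S_nr) (hV : S_Vb) (hS : S_SqQ) (hE : S_El) {m : ℕ} {R C₁ η η₁ : ℝ}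
    (hR : 1 ≤ R) (hC₁ : 1 ≤ C₁)
    (hQ : ∀ η : ℝ, 0 < η → C₁ * η ≤ 1 → ∀ g ∈ Vb m η,
      ∃ x ∈ Nm m, ∃ α ∈ A m, ∃ u ∈ Np m, g = x * α * u ∧ x ∈ Vb m (C₁ * η) ∧
        u ∈ Vb m (C₁ * η) ∧ ∀ i, |Real.log (α.1 i i)| ≤ C₁ * η)
    (hB : ∀ q ∈ (xS m).B, ∃ l ∈ Nm m, ∃ u ∈ Np m, l ∈ Vb m R ∧ u ∈ Vb m R ∧ q = l * u)
    {s₀ s k : ℕ} (hs₀ : s ≤ s₀) (hη : η = (2 * R + 1) * (1 / 2) ^ s)
    (hη₁ : η₁ = C₁ * ((2 * (m : ℝ) + 1 + R) ^ 2 * η)) (h1 : η₁ ≤ 1) (hk1 : (k : ℝ) * η₁ ≤ 1)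
    (j : ℕ) : j ≤ k → ∀ q ∈ ((xS m).B * {a m ^ s}) ^ j, ∃ y ∈ Nm m, ∃ α ∈ A m, ∃ v ∈ Np m,
      y ∈ Vb m ((1 + 8 * η) ^ j - 1) ∧ (∀ i, |Real.log (α.1 i i)| ≤ (j : ℝ) * η₁) ∧
      v ∈ Vb m η ∧ a m ^ s₀ * q = y * (α * a m ^ (s₀ + j * s)) * v := by
  obtain ⟨-, v2, v3, -, -, -, v7, v8, v9, -⟩ := hV m
  obtain ⟨-, -, -, -, -, -, -, eA, ecom, -, -, -, -, -, -, -, -, -⟩ := hE m
  have hn0 := (hn (2 * m + 1)).1
  have hh : (0 : ℝ) < (1 / 2) ^ s := by positivity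
  have hη0 : 0 < η := by rw [hη]; positivity
  have hm0 : (0 : ℝ) ≤ m := Nat.cast_nonneg m
  have hN : 1 ≤ 2 * (m : ℝ) + 1 + R := by linarith
  have hNη : 0 < (2 * (m : ℝ) + 1 + R) ^ 2 * η := by positivity
  have hη₁0 : 0 < η₁ := by rw [hη₁]; positivity
  have hcom : ∀ β ∈ A m, ∀ T : ℕ, β * a m ^ T = a m ^ T * β := fun β hβ T =>
    ecom β hβ _ (pow_mem eA T)
  induction j with
  | zero =>
    intro _ q hq
    rw [pow_zero, Set.mem_one] at hq
    subst hq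
    refine ⟨1, one_mem _, 1, one_mem _, 1, one_mem _, ?_, fun i => ?_, v3 _ hη0.le, ?_⟩
    · rw [pow_zero, sub_self]
      exact v3 0 le_rfl
    · have : (1 : P m).1 i i = 1 := Matrix.one_apply_eq i
      rw [this, Real.log_one, abs_zero]
      simp
    · rw [zero_mul, add_zero, one_mul, one_mul]
  | succ j ih =>
    intro hj q hq
    rw [pow_succ] at hq
    obtain ⟨q₁, hq₁, q₂, hq₂, rfl⟩ := hq
    obtain ⟨b, hb, c, hc, rfl⟩ := hq₂
    rw [Set.mem_singleton_iff] at hc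
    subst hc
    obtain ⟨l, hl, u, hu, lV, uV, rfl⟩ := hB b hb
    obtain ⟨y, hy, α, hα, v, hv, yV, αl, vV, e⟩ := ih (by omega) q₁ hq₁
    -- the element `l⁻¹ v l`
    have w1 := v8 l⁻¹ v η vV
    rw [inv_inv] at w1
    obtain ⟨n1, n2⟩ := v9 R l lV
    have w2 : l⁻¹ * v * l ∈ Vb m ((2 * (m : ℝ) + 1 + R) ^ 2 * η) := by
      refine v2 _ _ ?_ w1
      rw [pow_two]
      exact mul_le_mul_of_nonneg_right (mul_le_mul n2 n1 (hn0 _) (by linarith)) hη0.le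
    obtain ⟨x, hx, β, hβ, u₁, hu₁, e2, xV, u₁V, βl⟩ := hQ _ hNη (by rw [← hη₁]; exact h1) _ w2
    rw [← hη₁] at xV u₁V βl
    have lxV : l * x ∈ Vb m (2 * R + 1) := by
      have := v7 R η₁ (by linarith) hη₁0.le l lV x xV
      refine v2 _ _ ?_ this
      nlinarith
    have uuV : u₁ * u ∈ Vb m (2 * R + 1) := by
      have := v7 η₁ R hη₁0.le (by linarith) u₁ u₁V u uV
      refine v2 _ _ ?_ this
      nlinarith
    have αl1 : ∀ i, |Real.log (α.1 i i)| ≤ 1 := by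
      intro i
      refine (αl i).trans (le_trans ?_ hk1)
      refine mul_le_mul_of_nonneg_right ?_ hη₁0.le
      exact_mod_cast (by omega : j ≤ k)
    obtain ⟨c1, c2⟩ := (hS m (s₀ + j * s) (2 * R + 1)).1 α hα αl1 (l * x) (mul_mem hl hx) lxV
    obtain ⟨d1, d2⟩ := (hS m s (2 * R + 1)).2 (u₁ * u) (mul_mem hu₁ hu) uuV
    refine ⟨_, mul_mem hy c1, α * β, mul_mem hα hβ, _, d1, ?_, fun i => ?_, ?_, ?_⟩
    · have p1 : (0 : ℝ) ≤ (1 + 8 * η) ^ j - 1 := by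
        have := one_le_pow₀ (n := j) (show 1 ≤ 1 + 8 * η by linarith)
        linarith
      have c3 := v2 _ (8 * η) (by
        rw [hη]
        have k1 : (1 / 2 : ℝ) ^ (s₀ + j * s) ≤ (1 / 2) ^ s :=
          pow_le_pow_of_le_one (by norm_num) (by norm_num) (le_add_right hs₀)
        have k2 := mul_le_mul_of_nonneg_left k1 (show (0 : ℝ) ≤ 8 * (2 * R + 1) by linarith)
        linarith) c2
      have p2 : (0 : ℝ) ≤ 8 * η := by linarith
      have := v7 ((1 + 8 * η) ^ j - 1) (8 * η) p1 p2 y yV _ c3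
      refine v2 _ _ (le_of_eq ?_) this
      ring
    · have ha := hα.2 i
      have hb := hβ.2 i
      rw [Box_diag hα, Real.log_mul ha.ne' hb.ne']
      refine (abs_add_le _ _).trans ?_
      push_cast
      have := αl i
      have := βl i
      linarith
    · rw [hη, mul_comm]
      exact d2
    · rw [show s₀ + (j + 1) * s = (s₀ + j * s) + s by ring, pow_add (a m) (s₀ + j * s) s]
      exact Box_alg e e2 (hcom β hβ _)

theorem tBox : S_nr → S_Vb → S_QLU → S_SqQ → S_Bx → S_El → S_Box := by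
  intro hn hV hQ hS hB hE m
  obtain ⟨R, hR, hB⟩ := hB m
  obtain ⟨C₁, hC₁, hQ⟩ := hQ m
  have hm0 : (0 : ℝ) ≤ m := Nat.cast_nonneg m
  obtain ⟨K, hK⟩ : ∃ K, K = C₁ * ((2 * (m : ℝ) + 1 + R) ^ 2 * (2 * R + 1)) := ⟨_, rfl⟩
  have hN : 1 ≤ 2 * (m : ℝ) + 1 + R := by linarith
  have hK0 : 0 < K := by rw [hK]; positivity
  refine ⟨16 * (2 * R + 1) + 6 * (2 * m + 1) * K, by positivity, ?_⟩
  intro s₀ s k hs hk hss hC q hq
  obtain ⟨h, hh⟩ : ∃ h : ℝ, h = (1 / 2) ^ s := ⟨_, rfl⟩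
  have hh0 : 0 < h := by rw [hh]; positivity
  rw [← hh] at hC ⊢
  have hk1 : (1 : ℝ) ≤ k := by exact_mod_cast hk
  have hkh : h ≤ k * h := by nlinarith
  have hkh0 : 0 < k * h := by positivity
  have hC' : 16 * (2 * R + 1) * (k * h) + 6 * (2 * m + 1) * (K * (k * h)) ≤ 1 := by
    linarith
  have hA0 : 0 < (2 * R + 1) * (k * h) := by positivity
  have hB0 : 0 < K * (k * h) := by positivity
  have hmB : 0 ≤ (m : ℝ) * (K * (k * h)) := by positivity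
  have hkη₁ : (k : ℝ) * (K * h) ≤ 1 := by nlinarith
  have hη₁1 : K * h ≤ 1 := by nlinarith
  have hε : 8 * ((2 * R + 1) * (k * h)) ≤ 1 := by nlinarith
  obtain ⟨y, hy, α, hα, v, hv, yV, αl, vV, e⟩ := Box_ind hn hV hS hE (η := (2 * R + 1) * h)
    (η₁ := K * h) hR hC₁ hQ hB hss (by rw [hh]) (by rw [hK]; ring) hη₁1 hkη₁ k le_rfl q hq
  obtain ⟨-, v2, v3, -, -, -, v7, v8, v9, -⟩ := hV m
  obtain ⟨-, -, -, -, -, -, -, eA, ecom, -, -, -, -, -, einv, -, -, -⟩ := hE m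
  -- the bound for `y`
  have y1 : (1 + 8 * ((2 * R + 1) * h)) ^ k - 1 ≤ 16 * ((2 * R + 1) * (k * h)) := by
    have e1 : (1 + 8 * ((2 * R + 1) * h)) ^ k ≤ Real.exp (8 * ((2 * R + 1) * (k * h))) := by
      have e2 : 1 + 8 * ((2 * R + 1) * h) ≤ Real.exp (8 * ((2 * R + 1) * h)) := by
        have := Real.add_one_le_exp (8 * ((2 * R + 1) * h))
        linarith
      have e3 := pow_le_pow_left₀ (by positivity) e2 k
      rw [← Real.exp_nat_mul] at e3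
      refine e3.trans (le_of_eq ?_)
      congr 1
      ring
    have e4 := Real.abs_exp_sub_one_le (x := 8 * ((2 * R + 1) * (k * h)))
      (by rw [abs_of_pos (by positivity)]; exact hε)
    rw [abs_of_pos (show 0 < 8 * ((2 * R + 1) * (k * h)) by positivity)] at e4
    have e5 := (abs_le.1 e4).2
    linarith
  have y2 := v2 _ _ y1 yV
  -- the bound for `α`
  have tl : ∀ t : ℝ, 0 < t → |Real.log t| ≤ k * (K * h) → |t - 1| ≤ 2 * (k * (K * h)) := by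
    intro t ht hl
    have e1 := Real.abs_exp_sub_one_le (x := Real.log t) (hl.trans hkη₁)
    rw [Real.exp_log ht] at e1
    linarith
  have nd : ∀ γ ∈ A m, (∀ i, |Real.log (γ.1 i i)| ≤ k * (K * h)) →
      nr (γ.1 - 1) ≤ 2 * (2 * m + 1) * (K * (k * h)) := by
    intro γ hγ hl
    have e1 : γ.1 - 1 = Matrix.diagonal fun i => γ.1 i i - 1 := by
      ext i j
      by_cases hij : i = j
      · subst hij
        rw [Matrix.diagonal_apply_eq, Matrix.sub_apply, Matrix.one_apply_eq]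
      · rw [Matrix.diagonal_apply_ne _ hij, Matrix.sub_apply, Matrix.one_apply_ne hij,
          hγ.1 i j hij, sub_zero]
    obtain ⟨-, -, -, -, -, -, -, -, -, -, -, hd, -⟩ := hn (2 * m + 1)
    rw [e1, hd]
    refine (Finset.sum_le_sum fun i _ => tl _ (hγ.2 i) (hl i)).trans (le_of_eq ?_)
    rw [Finset.sum_const, Finset.card_univ, Fintype.card_fin, nsmul_eq_mul]
    push_cast
    ring
  have αV : α ∈ Vb m (2 * (2 * m + 1) * (K * (k * h))) := by
    refine ⟨nd α hα αl, nd α⁻¹ (inv_mem hα) fun i => ?_⟩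
    rw [einv α hα i, Real.log_inv, abs_neg]
    exact αl i
  have gV := v7 _ _ (by positivity) (by positivity) y y2 α αV
  refine ⟨y * α, v2 _ _ ?_ gV, v, v2 _ _ ?_ vV, ?_⟩
  · have p1 : 16 * ((2 * R + 1) * (k * h)) ≤ 2 := by linarith
    have p2 : 0 ≤ 2 * (2 * m + 1) * (K * (k * h)) := by positivity
    nlinarith
  · nlinarith
  · rw [e]
    simp only [mul_assoc]

end Pool.Agent.MPEF.U.S
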