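import Pool.Agent.Lib.MP_ef3f0f_gt.U.B.Spec

/-!
# MP_ef3f0f_gt, Theorem U, Part B, module Bx: the structure of the box
-/

set_option autoImplicit false

namespace Pool.Agent.MPEF.U.S

open Matrix Topology
open scoped Pointwise

/-- The product of the segments for a list of pairs. -/
private noncomputable def bxS (m : ℕ) (l : List (Fin (2 * m + 1) × Fin (2 * m + 1))) : Set (P m) :=
  (l.map fun p => tv m p.1 p.2 '' Set.Icc (0 : ℝ) 1).prod

private theorem bx_list (m : ℕ) (H : Subgroup (P m)) (hc : ∀ i j, Continuous (tv m i j))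
    (l : List (Fin (2 * m + 1) × Fin (2 * m + 1))) :
    (∀ p ∈ l, ∀ t, tv m p.1 p.2 t ∈ H) → IsCompact (bxS m l) ∧ ∀ g ∈ bxS m l, g ∈ H := by
  induction l with
  | nil =>
    intro _
    unfold bxS
    rw [List.map_nil, List.prod_nil]
    refine ⟨isCompact_singleton, ?_⟩
    rintro g rfl
    exact H.one_mem
  | cons p l ih =>
    intro h
    obtain ⟨h1, h2⟩ := ih fun q hq => h q (List.mem_cons_of_mem _ hq)
    have e : bxS m (p :: l) = (tv m p.1 p.2 '' Set.Icc (0 : ℝ) 1) * bxS m l := by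
      unfold bxS
      rw [List.map_cons, List.prod_cons]
    rw [e]
    refine ⟨(isCompact_Icc.image (hc p.1 p.2)).mul h1, ?_⟩
    rintro g ⟨a, ⟨t, -, rfl⟩, b, hb, rfl⟩
    exact H.mul_mem (h p List.mem_cons_self t) (h2 b hb)

private theorem bx_B (m : ℕ) : (xS m).B = bxS m (lows m) * bxS m (upps m) := by
  have h1 : (xS m).B = (((lows m ++ upps m).map fun p => tv m p.1 p.2).map
      fun e => e '' Set.Icc (0 : ℝ) 1).prod := rfl
  rw [h1, List.map_map, List.map_append, List.prod_append]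
  rfl

/-- **The box.** -/
theorem tBx : S_Vb → S_tv → S_Bx := by
  intro hVb htv m
  obtain ⟨-, v2, -, -, -, -, -, -, -, v10⟩ := hVb m
  obtain ⟨t1, -, t3, t4, t5, t6⟩ := htv m
  obtain ⟨c1, d1⟩ := bx_list m (Nm m) t1 (lows m) fun p hp t => t3 _ _ t ((t5 p.1 p.2).1 hp)
  obtain ⟨c2, d2⟩ := bx_list m (Np m) t1 (upps m) fun p hp t => t4 _ _ t ((t6 p.1 p.2).1 hp)
  obtain ⟨R1, hR1, k1, -⟩ := v10 _ c1
  obtain ⟨R2, hR2, k2, -⟩ := v10 _ c2
  refine ⟨max R1 R2, hR1.trans (le_max_left _ _), fun q hq => ?_⟩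
  rw [bx_B] at hq
  obtain ⟨a, ha, b, hb, rfl⟩ := hq
  exact ⟨a, d1 a ha, b, d2 b hb, v2 _ _ (le_max_left _ _) (k1 ha),
    v2 _ _ (le_max_right _ _) (k2 hb), rfl⟩

end Pool.Agent.MPEF.U.S
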