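import Pool.Agent.Lib.MP_ef3f0f_gt.U.B.Spec

/-!
# MP_ef3f0f_gt, Theorem U, Part B, module `Gen`: generation by bounded elementary matrices
-/

set_option autoImplicit false

namespace Pool.Agent.MPEF.U.S

open Matrix Topology
open scoped Pointwise

theorem Gen_of {m : ℕ} {i j : Fin (2 * m + 1)} (h : i ≠ j) (t : ℝ) :
    tv m i j t = Matrix.SpecialLinearGroup.transvection h t := dif_neg h

theorem Gen_mem {m : ℕ} {i j : Fin (2 * m + 1)} (h : i ≠ j) {t : ℝ} (ht : |t| ≤ 1)
    (hl : ∀ i j, (i, j) ∈ lows m ↔ j < i) (hu : ∀ i j, (i, j) ∈ upps m ↔ i < j) :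
    tv m i j t ∈ (xS m).E := by
  refine ⟨tv m i j, ?_, t, ht, rfl⟩
  change tv m i j ∈ (lows m ++ upps m).map fun p => tv m p.1 p.2
  rw [List.mem_map]
  refine ⟨(i, j), ?_, rfl⟩
  rw [List.mem_append, hl, hu]
  exact h.lt_or_gt.symm

theorem Gen_zero {m : ℕ} {i j : Fin (2 * m + 1)} (h : i ≠ j) : tv m i j 0 = 1 := by
  rw [Gen_of h, Matrix.SpecialLinearGroup.transvection_coeff_zero]

theorem Gen_pow {m : ℕ} {i j : Fin (2 * m + 1)} (h : i ≠ j)
    (ha : ∀ i j s t, tv m i j (s + t) = tv m i j s * tv m i j t) (t : ℝ) (n : ℕ) :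
    tv m i j t ^ n = tv m i j (n * t) := by
  induction n with
  | zero => rw [pow_zero, Nat.cast_zero, zero_mul, Gen_zero h]
  | succ n ih =>
    rw [pow_succ, ih, ← ha]
    congr 1
    push_cast
    ring

theorem Gen_right {m : ℕ} (X : P m) {p q : Fin (2 * m + 1)} (h : p ≠ q) (b : ℝ)
    (r s : Fin (2 * m + 1)) :
    (X * tv m p q b).1 r s = X.1 r s + (if s = q then X.1 r p * b else 0) := by
  rw [Matrix.SpecialLinearGroup.coe_mul, Gen_of h, Matrix.SpecialLinearGroup.transvection_coe,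
    mul_add, mul_one, Matrix.add_apply]
  congr 1
  split_ifs with hs
  · rw [hs, Matrix.mul_single_apply_same]
  · rw [Matrix.mul_single_apply_of_ne _ _ _ _ _ hs]

theorem Gen_tv {m : ℕ} {i j : Fin (2 * m + 1)} (h : i ≠ j) (t : ℝ) (r s : Fin (2 * m + 1)) :
    (tv m i j t).1 r s = (if r = s then 1 else 0) + (if s = j then (if r = i then t else 0)
      else 0) := by
  have h1 := Gen_right 1 h t r s
  rw [one_mul] at h1
  rw [h1, Matrix.SpecialLinearGroup.coe_one, Matrix.one_apply, Matrix.one_apply]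
  congr 1
  split_ifs <;> ring

theorem Gen_diag {m : ℕ} {i j : Fin (2 * m + 1)} (h : i ≠ j) {c : ℝ} (hc : c ≠ 0) :
    Matrix.SpecialLinearGroup.diag2n h c hc = tv m j i ((1 - c) / c) * tv m i j 1 *
      tv m j i (c - 1) * tv m i j (-1 / c) := by
  apply Subtype.ext
  ext r s
  rw [Matrix.SpecialLinearGroup.diag2n_coe, Matrix.diagonal_apply]
  simp only [Gen_right _ h, Gen_right _ h.symm, Gen_tv h.symm]
  by_cases hri : r = i
  · subst hri
    by_cases hsr : s = r
    · subst hsr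
      simp only [h, h.symm, if_true, if_false]
      ring
    by_cases hsj : s = j
    · subst hsj
      simp only [h, h.symm, if_true, if_false]
      field_simp
      ring
    · simp only [h, h.symm, hsr, hsj, Ne.symm hsr, if_true, if_false]
      ring
  by_cases hrj : r = j
  · subst hrj
    by_cases hsi : s = i
    · subst hsi
      simp only [h, h.symm, if_true, if_false]
      field_simp
      ring
    by_cases hsr : s = r
    · subst hsr
      simp only [h, h.symm, if_true, if_false]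
      field_simp
      ring
    · simp only [h, h.symm, hsi, hsr, Ne.symm hsr, if_true, if_false]
      ring
  · by_cases hsi : s = i
    · subst hsi
      simp only [h, h.symm, hri, hrj, if_true, if_false]
      ring
    by_cases hsj : s = j
    · subst hsj
      simp only [h, h.symm, hri, hrj, if_true, if_false]
      ring
    · simp only [h, h.symm, hri, hrj, hsi, hsj, if_true, if_false]
      ring

theorem Gen_gen {m : ℕ} {i j : Fin (2 * m + 1)} (h : i ≠ j) (hT : S_tv) (t : ℝ) :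
    ∃ L : ℕ, tv m i j t ∈ (xS m).E ^ L := by
  obtain ⟨_, ha, _, _, hl, hu⟩ := hT m
  refine ⟨⌈|t|⌉₊ + 1, ?_⟩
  have hL : (0 : ℝ) < ((⌈|t|⌉₊ + 1 : ℕ) : ℝ) := by positivity
  have h1 : tv m i j t = tv m i j (t / ((⌈|t|⌉₊ + 1 : ℕ) : ℝ)) ^ (⌈|t|⌉₊ + 1) := by
    rw [Gen_pow h ha]
    congr 1
    field_simp
  rw [h1]
  refine Set.pow_mem_pow (Gen_mem h ?_ hl hu)
  rw [abs_div, abs_of_pos hL, div_le_one hL]
  push_cast
  have := Nat.le_ceil |t|
  linarith

theorem Gen_mul {m : ℕ} (A B : P m) (hA : ∃ L : ℕ, A ∈ (xS m).E ^ L)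
    (hB : ∃ L : ℕ, B ∈ (xS m).E ^ L) : ∃ L : ℕ, A * B ∈ (xS m).E ^ L := by
  obtain ⟨L, hL⟩ := hA
  obtain ⟨L', hL'⟩ := hB
  refine ⟨L + L', ?_⟩
  rw [pow_add]
  exact Set.mul_mem_mul hL hL'

theorem tGen : S_tv → S_Gen := by
  intro hT m hm
  obtain ⟨_, ha, _, _, hl, hu⟩ := hT m
  have h01 : (⟨0, by omega⟩ : Fin (2 * m + 1)) ≠ ⟨1, by omega⟩ := by
    intro h
    have := congrArg Fin.val h
    simp at this
  refine ⟨?_, ?_, fun g => ?_⟩
  · rw [← Gen_zero h01]
    exact Gen_mem h01 (by rw [abs_zero]; exact zero_le_one) hl hu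
  · rintro g ⟨e, he, s, hs, rfl⟩
    change e ∈ (lows m ++ upps m).map (fun p => tv m p.1 p.2) at he
    rw [List.mem_map] at he
    obtain ⟨⟨i, j⟩, hp, rfl⟩ := he
    have hij : i ≠ j := by
      rw [List.mem_append, hl, hu] at hp
      rcases hp with hp | hp
      · exact hp.ne'
      · exact hp.ne
    have h1 : (tv m i j s)⁻¹ = tv m i j (-s) := by
      rw [inv_eq_iff_mul_eq_one, ← ha, add_neg_cancel, Gen_zero hij]
    change (tv m i j s)⁻¹ ∈ _
    rw [h1]
    exact Gen_mem hij (by rwa [abs_neg]) hl hu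
  · haveI : Nontrivial (Fin (2 * m + 1)) := ⟨_, _, h01⟩
    refine Matrix.SpecialLinearGroup.diagonal_transvection_induction'
      (fun g => ∃ L : ℕ, g ∈ (xS m).E ^ L) g ?_ ?_ Gen_mul
    · intro i j hij c hc
      rw [Gen_diag hij hc]
      exact Gen_mul _ _ (Gen_mul _ _ (Gen_mul _ _ (Gen_gen hij.symm hT _) (Gen_gen hij hT _))
        (Gen_gen hij.symm hT _)) (Gen_gen hij hT _)
    · intro i j hij t
      rw [← Gen_of hij]
      exact Gen_gen hij hT t

end Pool.Agent.MPEF.U.S
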