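import Pool.Agent.Lib.MP_ef3f0f_gt.U.B.Spec

set_option autoImplicit false

/-!
# MP_ef3f0f_gt, Theorem U, Part B, module QLU: quantitative LU decomposition near `1`
-/

namespace Pool.Agent.MPEF.U.S

open Matrix Topology
open scoped Pointwise

private theorem QLU_log {t δ : ℝ} (h : |t - 1| ≤ δ) (hδ : δ ≤ 1 / 2) :
    0 < t ∧ |Real.log t| ≤ 2 * δ ∧ |t⁻¹ - 1| ≤ 2 * δ := by
  have h1 := abs_le.1 h
  have ht : 1 / 2 ≤ t := by linarith [h1.1]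
  have ht0 : 0 < t := by linarith
  have hδ0 : 0 ≤ δ := (abs_nonneg _).trans h
  have hi : t⁻¹ - 1 = (1 - t) * t⁻¹ := by
    field_simp
  have hi2 : t⁻¹ ≤ 2 := by
    rw [inv_le_comm₀ ht0 (by norm_num)]
    linarith
  have hi0 : 0 < t⁻¹ := inv_pos.2 ht0
  have h2 : |t⁻¹ - 1| ≤ 2 * δ := by
    rw [hi, abs_mul, abs_of_pos hi0, abs_sub_comm]
    nlinarith [abs_nonneg (t - 1)]
  refine ⟨ht0, ?_, h2⟩
  have h3 := Real.log_le_sub_one_of_pos ht0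
  have h4 := Real.one_sub_inv_le_log_of_pos ht0
  have h5 := abs_le.1 h2
  rw [abs_le]
  constructor
  · linarith [h5.2]
  · linarith [h1.2]

theorem tQLU : S_nr → S_Vb → S_LUn → S_El → S_QLU := by
  intro hnr hVb hLU hEl m
  obtain ⟨n0, nadd, -, nmul, -, nswap, nent, n1, -, nmono, nscale, -, -⟩ := hnr (2 * m + 1)
  obtain ⟨-, -, -, -, vnhds, vsub, -, -, vnr, -⟩ := hVb m
  obtain ⟨-, -, -, -, -, -, -, -, -, hAB, hNB, -, -, -, hinv, -, -, -⟩ := hEl m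
  obtain ⟨V, hV, hVu⟩ := (hLU m).1 (Vb m 1) (vnhds 1 one_pos)
  obtain ⟨η₀, hη₀, hη₀V⟩ := vsub V hV
  obtain ⟨N, hN⟩ : ∃ N : ℝ, N = 2 * m + 2 := ⟨_, rfl⟩
  have hN2 : 2 ≤ N := by
    rw [hN]
    have : (0 : ℝ) ≤ m := Nat.cast_nonneg m
    linarith
  have hN0 : 0 ≤ N := by linarith
  have hNN : N ≤ N ^ 2 := by nlinarith
  have hNNN : N ^ 2 ≤ N ^ 3 := by nlinarith [sq_nonneg N]
  have hη₀i : 0 < η₀⁻¹ := inv_pos.2 hη₀
  refine ⟨6 * N ^ 3 + η₀⁻¹, by nlinarith, ?_⟩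
  intro η hη hC g hg
  have hC1 : 6 * N ^ 3 * η + η₀⁻¹ * η ≤ 1 := by linarith
  have hp1 : 0 ≤ N ^ 3 * η := by positivity
  have hp2 : 0 ≤ η₀⁻¹ * η := by positivity
  have hηη₀ : η ≤ η₀ := by
    have h1 : η₀⁻¹ * η ≤ 1 := by linarith
    have h2 : η₀ * (η₀⁻¹ * η) ≤ η₀ * 1 := mul_le_mul_of_nonneg_left h1 hη₀.le
    rwa [mul_inv_cancel_left₀ hη₀.ne', mul_one] at h2
  have hgV : g ∈ V := hη₀V ⟨hg.1.trans hηη₀, hg.2.trans hηη₀⟩
  obtain ⟨x, hx, α, hα, u, hu, hxU, hαU, huU, hgx⟩ := hVu g hgV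
  have bnd : ∀ y ∈ Vb m 1, nr y.1 ≤ N ∧ nr (y⁻¹).1 ≤ N := by
    intro y hy
    have h := vnr 1 y hy
    rw [hN]
    constructor
    · linarith [h.1]
    · linarith [h.2]
  -- the basic equation
  have hxi : x⁻¹ ∈ Nm m := (Nm m).inv_mem hx
  have hαi : α⁻¹ ∈ A m := (A m).inv_mem hα
  have e1 : (x⁻¹).1 * g.1 = (α * u).1 := by
    have : (x⁻¹).1 * g.1 = (x⁻¹ * g).1 := rfl
    rw [this, hgx]
    congr 1
    group
  have e2 : x.1 * (x⁻¹).1 = 1 := by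
    have : x.1 * (x⁻¹).1 = (x * x⁻¹).1 := rfl
    rw [this, mul_inv_cancel]
    rfl
  have e3 : (x⁻¹).1 * (g.1 - 1) = (α * u).1 - (x⁻¹).1 := by
    rw [mul_sub, e1, mul_one]
  have b1 : nr ((x⁻¹).1 * (g.1 - 1)) ≤ N * η :=
    (nmul _ _).trans (mul_le_mul (bnd x hxU).2 hg.1 (n0 _) hN0)
  have hαu : α * u ∈ Bor m := (Bor m).mul_mem (hAB hα) (hNB hu)
  have b2 : nr ((x⁻¹).1 - 1) ≤ N * η := by
    refine (nmono _ _ fun i j => ?_).trans b1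
    rw [e3, Matrix.sub_apply, Matrix.sub_apply]
    rcases lt_trichotomy i j with h | h | h
    · rw [hxi.1 i j h, Matrix.one_apply_ne h.ne, sub_zero, abs_zero]
      exact abs_nonneg _
    · rw [h, hxi.2 j, Matrix.one_apply_eq, sub_self, abs_zero]
      exact abs_nonneg _
    · rw [hαu.1 i j h, Matrix.one_apply_ne h.ne', sub_zero, zero_sub, abs_neg]
  have b3 : nr (x.1 - 1) ≤ N ^ 2 * η := by
    have h1 : x.1 - 1 = x.1 * (1 - (x⁻¹).1) := by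
      rw [mul_sub, e2, mul_one]
    rw [h1]
    refine (nmul _ _).trans ?_
    rw [nswap 1 (x⁻¹).1, sq, mul_assoc]
    exact mul_le_mul (bnd x hxU).1 b2 (n0 _) hN0
  have b4 : nr ((α * u).1 - 1) ≤ 2 * N * η := by
    have h1 : (α * u).1 - 1 = (x⁻¹).1 * (g.1 - 1) + ((x⁻¹).1 - 1) := by
      rw [e3]
      abel
    rw [h1]
    refine (nadd _ _).trans ?_
    linarith
  -- the diagonal
  have hd : ∀ i, (α * u).1 i i = α.1 i i := by
    intro i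
    have h1 : (α * u).1 i i = α.1 i i * u.1 i i :=
      (tri_mul (fun i j hij => hα.1 i j hij.ne') hu.1).2 i
    rw [h1, hu.2 i, mul_one]
  have hsm : 2 * N * η ≤ 1 / 2 := by
    have h1 : N * η ≤ N ^ 3 * η := mul_le_mul_of_nonneg_right (hNN.trans hNNN) hη.le
    linarith
  have b5 : ∀ i, |α.1 i i - 1| ≤ 2 * N * η := by
    intro i
    have h1 := (nent ((α * u).1 - 1) i i).trans b4
    rwa [Matrix.sub_apply, hd, Matrix.one_apply_eq] at h1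
  have b6 : nr ((α⁻¹).1 - 1) ≤ 4 * N ^ 2 * η := by
    have h1 : nr ((α⁻¹).1 - 1) ≤ (2 * (2 * N * η)) *
        nr (1 : Matrix (Fin (2 * m + 1)) (Fin (2 * m + 1)) ℝ) := by
      refine nscale _ _ _ fun i j => ?_
      rw [Matrix.sub_apply]
      by_cases h : i = j
      · rw [h, Matrix.one_apply_eq, abs_one, mul_one, hinv α hα j]
        exact (QLU_log (b5 j) hsm).2.2
      · rw [hαi.1 i j h, Matrix.one_apply_ne h, sub_zero, abs_zero, mul_zero]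
    rw [n1] at h1
    have h2 : ((2 * m + 1 : ℕ) : ℝ) ≤ N := by
      rw [hN]
      push_cast
      linarith
    have h3 : (2 * (2 * N * η)) * ((2 * m + 1 : ℕ) : ℝ) ≤ (2 * (2 * N * η)) * N :=
      mul_le_mul_of_nonneg_left h2 (by positivity)
    calc nr ((α⁻¹).1 - 1) ≤ (2 * (2 * N * η)) * N := h1.trans h3
      _ = 4 * N ^ 2 * η := by ring
  have e4 : (α⁻¹).1 * (α * u).1 = u.1 := by
    have : (α⁻¹).1 * (α * u).1 = (α⁻¹ * (α * u)).1 := rfl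
    rw [this, inv_mul_cancel_left]
  have b7 : nr (u.1 - 1) ≤ 6 * N ^ 2 * η := by
    have h1 : u.1 - 1 = (α⁻¹).1 * ((α * u).1 - 1) + ((α⁻¹).1 - 1) := by
      rw [mul_sub, e4, mul_one]
      abel
    rw [h1]
    refine (nadd _ _).trans ?_
    have h2 : nr ((α⁻¹).1 * ((α * u).1 - 1)) ≤ N * (2 * N * η) :=
      (nmul _ _).trans (mul_le_mul (bnd α hαU).2 b4 (n0 _) hN0)
    calc nr ((α⁻¹).1 * ((α * u).1 - 1)) + nr ((α⁻¹).1 - 1)
        ≤ N * (2 * N * η) + 4 * N ^ 2 * η := add_le_add h2 b6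
      _ = 6 * N ^ 2 * η := by ring
  have e5 : (u⁻¹).1 * u.1 = 1 := by
    have : (u⁻¹).1 * u.1 = (u⁻¹ * u).1 := rfl
    rw [this, inv_mul_cancel]
    rfl
  have b8 : nr ((u⁻¹).1 - 1) ≤ 6 * N ^ 3 * η := by
    have h1 : (u⁻¹).1 - 1 = (u⁻¹).1 * (1 - u.1) := by
      rw [mul_sub, e5, mul_one]
    rw [h1]
    refine (nmul _ _).trans ?_
    rw [nswap 1 u.1]
    calc nr (u⁻¹).1 * nr (u.1 - 1) ≤ N * (6 * N ^ 2 * η) :=
          mul_le_mul (bnd u huU).2 b7 (n0 _) hN0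
      _ = 6 * N ^ 3 * η := by ring
  have k1 : N ^ 2 * η ≤ N ^ 3 * η := mul_le_mul_of_nonneg_right hNNN hη.le
  have k2 : N * η ≤ N ^ 2 * η := mul_le_mul_of_nonneg_right hNN hη.le
  have k3 : (6 * N ^ 3 + η₀⁻¹) * η = 6 * (N ^ 3 * η) + η₀⁻¹ * η := by ring
  refine ⟨x, hx, α, hα, u, hu, hgx, ⟨?_, ?_⟩, ⟨?_, ?_⟩, fun i => ?_⟩
  · rw [k3]
    linarith
  · rw [k3]
    linarith
  · rw [k3]
    linarith
  · rw [k3]
    linarith
  · have h1 := (QLU_log (b5 i) hsm).2.1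
    rw [k3]
    linarith

end Pool.Agent.MPEF.U.S
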