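import Pool.Agent.Lib.MP_ef3f0f_gt.U.B.Spec

set_option autoImplicit false

namespace Pool.Agent.MPEF.U.S

open Matrix Topology
open scoped Pointwise

private def Sep_emb (m : ℕ) (g : P m) : Fin (2 * m + 1) → Fin (2 * m + 1) → ℝ := g.1

private theorem Sep_cont (m : ℕ) : Continuous (Sep_emb m) := continuous_subtype_val

private theorem Sep_dist (hn : S_nr) (m : ℕ) (g g' : P m) :
    dist (Sep_emb m g) (Sep_emb m g') ≤ nr (g.1 - g'.1) := by
  obtain ⟨h0, -, -, -, -, -, hentry, -⟩ := hn (2 * m + 1)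
  rw [dist_pi_le_iff (h0 _)]
  intro i
  rw [dist_pi_le_iff (h0 _)]
  intro j
  rw [Real.dist_eq]
  exact hentry (g.1 - g'.1) i j

private theorem Sep_nr_le (m : ℕ) (g g' : P m) (ε : ℝ)
    (h : dist (Sep_emb m g) (Sep_emb m g') < ε) :
    nr (g.1 - g'.1) ≤ (2 * m + 1) * ((2 * m + 1) * ε) := by
  unfold nr
  have h1 : ∀ i j, |(g.1 - g'.1) i j| ≤ ε := by
    intro i j
    have h2 : dist (Sep_emb m g i j) (Sep_emb m g' i j) ≤ ε :=
      ((dist_le_pi_dist _ _ j).trans (dist_le_pi_dist _ _ i)).trans h.le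
    rwa [Real.dist_eq] at h2
  calc ∑ i, ∑ j, |(g.1 - g'.1) i j| ≤ ∑ _i : Fin (2 * m + 1), ∑ _j : Fin (2 * m + 1), ε :=
        Finset.sum_le_sum fun i _ => Finset.sum_le_sum fun j _ => h1 i j
    _ = (2 * m + 1) * ((2 * m + 1) * ε) := by
        simp only [Finset.sum_const, Finset.card_univ, Fintype.card_fin, nsmul_eq_mul]
        push_cast
        ring

private noncomputable def Sep_r (m : ℕ) (K : Set (Fin (2 * m + 1) → Fin (2 * m + 1) → ℝ))
    (ε : ℝ) (g : P m) : ℝ := max (1 - Metric.infDist (Sep_emb m g) K / ε) 0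

private theorem Sep_r_lip (hn : S_nr) (m : ℕ)
    (K : Set (Fin (2 * m + 1) → Fin (2 * m + 1) → ℝ)) (ε : ℝ) (hε : 0 < ε) (g g' : P m) :
    |Sep_r m K ε g - Sep_r m K ε g'| ≤ nr (g.1 - g'.1) / ε := by
  unfold Sep_r
  refine (abs_max_sub_max_le_abs _ _ _).trans ?_
  have h1 : 1 - Metric.infDist (Sep_emb m g) K / ε - (1 - Metric.infDist (Sep_emb m g') K / ε) =
      (Metric.infDist (Sep_emb m g') K - Metric.infDist (Sep_emb m g) K) / ε := by ring
  rw [h1, abs_div, abs_of_pos hε]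
  refine div_le_div_of_nonneg_right ?_ hε.le
  have h2 := Metric.infDist_le_infDist_add_dist (s := K) (x := Sep_emb m g) (y := Sep_emb m g')
  have h3 := Metric.infDist_le_infDist_add_dist (s := K) (x := Sep_emb m g') (y := Sep_emb m g)
  have h4 := Sep_dist hn m g g'
  have h5 : dist (Sep_emb m g') (Sep_emb m g) = dist (Sep_emb m g) (Sep_emb m g') :=
    dist_comm _ _
  rw [abs_le]
  constructor <;> linarith

theorem tSep : S_nr → S_Vb → S_Sep := by
  intro hn hV m Q O hQ hO hQO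
  rcases Q.eq_empty_or_nonempty with rfl | hne
  · refine ⟨fun _ => 0, continuous_const, ⟨0, le_rfl, fun η _ _ g _ q => ?_⟩, fun g => zero_le,
      fun g hg => absurd hg (Set.notMem_empty g), fun g _ => rfl⟩
    simp
  obtain ⟨h0, hadd, hsub, hmul, hneg, hcomm, hentry, h1, -⟩ := hn (2 * m + 1)
  obtain ⟨-, -, -, -, -, -, -, -, -, hbd⟩ := hV m
  obtain ⟨R, hR1, -, hR⟩ := hbd Q hQ
  -- the separation
  obtain ⟨O', hO', hOO'⟩ := isOpen_induced_iff.1 hO
  have hK : IsCompact (Sep_emb m '' Q) := hQ.image (Sep_cont m)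
  have hmem : ∀ g : P m, Sep_emb m g ∈ (O' : Set (Fin (2 * m + 1) → Fin (2 * m + 1) → ℝ)) ↔
      g ∈ O := fun g => Set.ext_iff.1 hOO' g
  have hKO : Sep_emb m '' Q ⊆ (O' : Set (Fin (2 * m + 1) → Fin (2 * m + 1) → ℝ)) := by
    rintro _ ⟨q, hq, rfl⟩
    exact (hmem q).2 (hQO hq)
  obtain ⟨ε, hε, hth⟩ := hK.exists_thickening_subset_open hO' hKO
  have hKne : (Sep_emb m '' Q).Nonempty := hne.image _
  have hfar : ∀ g, g ∉ O → ε ≤ Metric.infDist (Sep_emb m g) (Sep_emb m '' Q) := by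
    intro g hg
    by_contra hc
    rw [not_le] at hc
    apply hg
    have h2 : Sep_emb m g ∈ Metric.thickening ε (Sep_emb m '' Q) := by
      rw [Metric.mem_thickening_iff]
      exact (Metric.infDist_lt_iff hKne).1 hc
    exact (hmem g).1 (hth h2)
  have hr0 : ∀ g, 0 ≤ Sep_r m (Sep_emb m '' Q) ε g := fun g => le_max_right _ _
  have hr1 : ∀ g, Sep_r m (Sep_emb m '' Q) ε g ≤ 1 := by
    intro g
    unfold Sep_r
    refine max_le ?_ zero_le_one
    have h2 : 0 ≤ Metric.infDist (Sep_emb m g) (Sep_emb m '' Q) / ε :=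
      div_nonneg Metric.infDist_nonneg hε.le
    linarith
  have hrb : ∀ g, Sep_r m (Sep_emb m '' Q) ε g ≠ 0 →
      nr g.1 ≤ (2 * m + 1) * ((2 * m + 1) * ε) + R := by
    intro g hg
    have h2 : Metric.infDist (Sep_emb m g) (Sep_emb m '' Q) < ε := by
      by_contra hc
      rw [not_lt] at hc
      apply hg
      unfold Sep_r
      apply max_eq_right
      have h3 : 1 ≤ Metric.infDist (Sep_emb m g) (Sep_emb m '' Q) / ε := (one_le_div hε).2 hc
      linarith
    obtain ⟨_, ⟨q0, hq0, rfl⟩, h4⟩ := (Metric.infDist_lt_iff hKne).1 h2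
    have h5 := Sep_nr_le m g q0 ε h4
    have h6 := hadd (g.1 - q0.1) q0.1
    rw [sub_add_cancel] at h6
    have h7 := (hR q0 hq0).1
    linarith
  have hC0 : 0 ≤ ((2 * m + 1) * ((2 * m + 1) * ε) + R) / ε := by positivity
  have hlip : ∀ (q q' : P m) (η : ℝ), 0 ≤ η →
      (nr q.1 ≤ (2 * m + 1) * ((2 * m + 1) * ε) + R →
        nr (q'.1 - q.1) ≤ ((2 * m + 1) * ((2 * m + 1) * ε) + R) * η) →
      (nr q'.1 ≤ (2 * m + 1) * ((2 * m + 1) * ε) + R →
        nr (q'.1 - q.1) ≤ ((2 * m + 1) * ((2 * m + 1) * ε) + R) * η) →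
      |Sep_r m (Sep_emb m '' Q) ε q' - Sep_r m (Sep_emb m '' Q) ε q| ≤
        ((2 * m + 1) * ((2 * m + 1) * ε) + R) / ε * η := by
    intro q q' η hη ha hb
    have key : nr (q'.1 - q.1) ≤ ((2 * m + 1) * ((2 * m + 1) * ε) + R) * η →
        |Sep_r m (Sep_emb m '' Q) ε q' - Sep_r m (Sep_emb m '' Q) ε q| ≤
        ((2 * m + 1) * ((2 * m + 1) * ε) + R) / ε * η := by
      intro h2
      refine (Sep_r_lip hn m _ ε hε q' q).trans ?_
      rw [div_mul_eq_mul_div]
      exact div_le_div_of_nonneg_right h2 hε.le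
    by_cases hq : Sep_r m (Sep_emb m '' Q) ε q = 0
    · by_cases hq' : Sep_r m (Sep_emb m '' Q) ε q' = 0
      · rw [hq, hq', sub_zero, abs_zero]
        exact mul_nonneg hC0 hη
      · exact key (hb (hrb q' hq'))
    · exact key (ha (hrb q hq))
  have htr : ∀ g, (ENNReal.ofReal (Sep_r m (Sep_emb m '' Q) ε g)).toReal =
      Sep_r m (Sep_emb m '' Q) ε g := fun g => ENNReal.toReal_ofReal (hr0 g)
  refine ⟨fun g => ENNReal.ofReal (Sep_r m (Sep_emb m '' Q) ε g), ?_,
    ⟨((2 * m + 1) * ((2 * m + 1) * ε) + R) / ε, hC0, ?_⟩, ?_, ?_, ?_⟩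
  · refine ENNReal.continuous_ofReal.comp ?_
    unfold Sep_r
    exact (continuous_const.sub
      (((Metric.continuous_infDist_pt _).comp (Sep_cont m)).div_const _)).max continuous_const
  · intro η hη _ g hg q
    have hg' : nr (g.1 - 1) ≤ η ∧ nr ((g⁻¹).1 - 1) ≤ η := hg
    have hg2 : nr (1 - (g⁻¹).1) ≤ η := by
      rw [hcomm]
      exact hg'.2
    simp only [htr]
    constructor
    · refine hlip q (q * g) η hη.le (fun h2 => ?_) (fun h2 => ?_)
      · have e1 : (q * g).1 - q.1 = q.1 * (g.1 - 1) := by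
          rw [Matrix.mul_sub, Matrix.mul_one]
          rfl
        rw [e1]
        exact (hmul _ _).trans (mul_le_mul h2 hg'.1 (h0 _) ((h0 _).trans h2))
      · have e1 : (q * g).1 - q.1 = (q * g).1 * (1 - (g⁻¹).1) := by
          rw [Matrix.mul_sub, Matrix.mul_one]
          have e2 : (q * g).1 * (g⁻¹).1 = q.1 := by
            change (q * g * g⁻¹).1 = q.1
            rw [mul_inv_cancel_right]
          rw [e2]
        rw [e1]
        exact (hmul _ _).trans (mul_le_mul h2 hg2 (h0 _) ((h0 _).trans h2))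
    · refine hlip q (g * q) η hη.le (fun h2 => ?_) (fun h2 => ?_)
      · have e1 : (g * q).1 - q.1 = (g.1 - 1) * q.1 := by
          rw [Matrix.sub_mul, Matrix.one_mul]
          rfl
        rw [e1, mul_comm ((2 * (m : ℝ) + 1) * ((2 * m + 1) * ε) + R) η]
        exact (hmul _ _).trans (mul_le_mul hg'.1 h2 (h0 _) hη.le)
      · have e1 : (g * q).1 - q.1 = (1 - (g⁻¹).1) * (g * q).1 := by
          rw [Matrix.sub_mul, Matrix.one_mul]
          have e2 : (g⁻¹).1 * (g * q).1 = q.1 := by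
            change (g⁻¹ * (g * q)).1 = q.1
            rw [inv_mul_cancel_left]
          rw [e2]
        rw [e1, mul_comm ((2 * (m : ℝ) + 1) * ((2 * m + 1) * ε) + R) η]
        exact (hmul _ _).trans (mul_le_mul hg2 h2 (h0 _) hη.le)
  · intro g
    rw [← ENNReal.ofReal_one]
    exact ENNReal.ofReal_le_ofReal (hr1 g)
  · intro g hg
    have h2 : Metric.infDist (Sep_emb m g) (Sep_emb m '' Q) = 0 :=
      Metric.infDist_zero_of_mem ⟨g, hg, rfl⟩
    change ENNReal.ofReal (Sep_r m (Sep_emb m '' Q) ε g) = 1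
    unfold Sep_r
    rw [h2, zero_div, sub_zero, max_eq_left zero_le_one, ENNReal.ofReal_one]
  · intro g hg
    have h2 := hfar g hg
    change ENNReal.ofReal (Sep_r m (Sep_emb m '' Q) ε g) = 0
    unfold Sep_r
    have h3 : 1 ≤ Metric.infDist (Sep_emb m g) (Sep_emb m '' Q) / ε := (one_le_div hε).2 h2
    rw [max_eq_right (by linarith), ENNReal.ofReal_zero]

end Pool.Agent.MPEF.U.S
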