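import Pool.Agent.Lib.MP_ef3f0f_gt.U.B.Spec

/-!
# MP_ef3f0f_gt, Theorem U, Part B: quantitative squeezing
-/

set_option autoImplicit false

namespace Pool.Agent.MPEF.U.S

open Matrix Topology
open scoped Pointwise

private theorem mulA {m : ℕ} {α : P m} (hα : α ∈ A m) (g : P m) (i j : Fin (2 * m + 1)) :
    (α * g).1 i j = α.1 i i * g.1 i j := by
  rw [Matrix.SpecialLinearGroup.coe_mul, Matrix.mul_apply]
  refine Finset.sum_eq_single i (fun k _ hk => ?_) (fun hi => absurd (Finset.mem_univ i) hi)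
  rw [hα.1 i k (Ne.symm hk), zero_mul]

private theorem key1 (hnr : S_nr) (hEl : S_El) {m : ℕ} {d : P m} (hd : d ∈ A m) {x : P m}
    (hx : ∀ i, x.1 i i = 1) {c : ℝ}
    (hc : ∀ i j, i ≠ j → x.1 i j ≠ 0 → d.1 i i ≤ c * d.1 j j) :
    nr ((d * x * d⁻¹).1 - 1) ≤ c * nr (x.1 - 1) := by
  obtain ⟨-, -, -, -, -, -, -, -, -, -, h11, -⟩ := hnr (2 * m + 1)
  obtain ⟨-, -, -, -, -, -, -, -, -, -, -, -, -, -, -, h16, -⟩ := hEl m
  refine h11 _ _ c fun i j => ?_
  rw [Matrix.sub_apply, Matrix.sub_apply, h16 d hd x i j]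
  have hi := hd.2 i
  have hj := hd.2 j
  by_cases hij : i = j
  · subst hij
    rw [hx i, mul_one, mul_inv_cancel₀ hi.ne', Matrix.one_apply_eq, sub_self, abs_zero, mul_zero]
  · rw [Matrix.one_apply_ne hij, sub_zero, sub_zero]
    by_cases h0 : x.1 i j = 0
    · rw [h0]
      simp
    · have h1 : d.1 i i * x.1 i j * (d.1 j j)⁻¹ = (d.1 i i * (d.1 j j)⁻¹) * x.1 i j := by ring
      rw [h1, abs_mul]
      refine mul_le_mul_of_nonneg_right ?_ (abs_nonneg _)
      rw [abs_of_pos (mul_pos hi (inv_pos.2 hj)), ← div_eq_mul_inv, div_le_iff₀ hj]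
      exact hc i j hij h0

theorem tSqQ : S_nr → S_El → S_Dp → S_SqQ := by
  intro hnr hEl hDp m T R
  have hn0 := (hnr (2 * m + 1)).1
  obtain ⟨-, -, -, -, -, -, -, hA, -, -, -, -, -, -, h15, h16, -⟩ := hEl m
  obtain ⟨-, -, -, -, -, hDa, -⟩ := hDp m
  have hb : a m ^ T ∈ A m := Subgroup.pow_mem _ hA T
  have h2 : (0 : ℝ) < (1 / 2) ^ T := by positivity
  have h22 : (1 / 2 : ℝ) ^ T * 2 ^ T = 1 := by
    rw [← mul_pow]
    norm_num
  have hbij : ∀ i j : Fin (2 * m + 1), j < i →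
      (a m ^ T).1 i i ≤ (1 / 2) ^ T * (a m ^ T).1 j j := by
    intro i j hij
    have h3 := (hDa T).2 j i hij
    calc (a m ^ T).1 i i = (1 / 2) ^ T * (2 ^ T * (a m ^ T).1 i i) := by
          rw [← mul_assoc, h22, one_mul]
      _ ≤ _ := mul_le_mul_of_nonneg_left h3 h2.le
  constructor
  · intro α hα hlog x hx hxR
    have hd : α * a m ^ T ∈ A m := Subgroup.mul_mem _ hα hb
    have he : ∀ i j : Fin (2 * m + 1), α.1 i i ≤ 8 * α.1 j j := by
      intro i j
      have h4 := (abs_le.1 (hlog i)).2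
      have h5 := (abs_le.1 (hlog j)).1
      have h6 : Real.log (α.1 i i) ≤ Real.log (8 * α.1 j j) := by
        rw [Real.log_mul (by norm_num) (hα.2 j).ne']
        have h7 : (2 : ℝ) ≤ Real.log 8 := by
          rw [Real.le_log_iff_exp_le (by norm_num)]
          have h8 := Real.exp_one_lt_d9
          have h9 : Real.exp 2 = Real.exp 1 * Real.exp 1 := by
            rw [← Real.exp_add]
            norm_num
          have h10 := Real.exp_pos 1
          rw [h9]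
          nlinarith
        linarith
      exact (Real.log_le_log_iff (hα.2 i) (mul_pos (by norm_num) (hα.2 j))).1 h6
    have hdd : ∀ i j : Fin (2 * m + 1), j < i → (α * a m ^ T).1 i i ≤
        8 * (1 / 2) ^ T * (α * a m ^ T).1 j j := by
      intro i j hij
      rw [mulA hα, mulA hα]
      calc α.1 i i * (a m ^ T).1 i i ≤ (8 * α.1 j j) * ((1 / 2) ^ T * (a m ^ T).1 j j) :=
            mul_le_mul (he i j) (hbij i j hij) (hb.2 i).le
              (mul_nonneg (by norm_num) (hα.2 j).le)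
        _ = _ := by ring
    have hcond : ∀ y ∈ Nm m, ∀ i j : Fin (2 * m + 1), i ≠ j → y.1 i j ≠ 0 →
        (α * a m ^ T).1 i i ≤ 8 * (1 / 2) ^ T * (α * a m ^ T).1 j j := by
      intro y hy i j hij h0
      rcases lt_or_gt_of_ne hij with h | h
      · exact absurd (hy.1 i j h) h0
      · exact hdd i j h
    have hc0 : (0 : ℝ) ≤ 8 * (1 / 2) ^ T := by positivity
    refine ⟨⟨fun i j hij => ?_, fun i => ?_⟩, ?_, ?_⟩
    · rw [h16 _ hd, hx.1 i j hij, mul_zero, zero_mul]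
    · rw [h16 _ hd, hx.2 i, mul_one, mul_inv_cancel₀ (hd.2 i).ne']
    · exact (key1 hnr hEl hd hx.2 (hcond x hx)).trans (mul_le_mul_of_nonneg_left hxR.1 hc0)
    · have hxi := Subgroup.inv_mem _ hx
      have h3 : ((α * a m ^ T) * x * (α * a m ^ T)⁻¹)⁻¹ =
          (α * a m ^ T) * x⁻¹ * (α * a m ^ T)⁻¹ := by group
      rw [h3]
      exact (key1 hnr hEl hd hxi.2 (hcond _ hxi)).trans (mul_le_mul_of_nonneg_left hxR.2 hc0)
  · intro u hu huR
    have hd : (a m ^ T)⁻¹ ∈ A m := Subgroup.inv_mem _ hb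
    have hdd : ∀ i j : Fin (2 * m + 1), i < j → ((a m ^ T)⁻¹).1 i i ≤
        (1 / 2) ^ T * ((a m ^ T)⁻¹).1 j j := by
      intro i j hij
      rw [h15 _ hb, h15 _ hb]
      have h3 := hbij j i hij
      have hi := hb.2 i
      have hj := hb.2 j
      rw [← div_eq_mul_inv, le_div_iff₀ hj, ← div_eq_inv_mul, div_le_iff₀ hi]
      exact h3
    have hcond : ∀ y ∈ Np m, ∀ i j : Fin (2 * m + 1), i ≠ j → y.1 i j ≠ 0 →
        ((a m ^ T)⁻¹).1 i i ≤ (1 / 2) ^ T * ((a m ^ T)⁻¹).1 j j := by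
      intro y hy i j hij h0
      rcases lt_or_gt_of_ne hij with h | h
      · exact hdd i j h
      · exact absurd (hy.1 i j h) h0
    have h4 : (a m ^ T)⁻¹ * u * a m ^ T = (a m ^ T)⁻¹ * u * ((a m ^ T)⁻¹)⁻¹ := by
      rw [inv_inv]
    rw [h4]
    refine ⟨⟨fun i j hij => ?_, fun i => ?_⟩, ?_, ?_⟩
    · rw [h16 _ hd, hu.1 i j hij, mul_zero, zero_mul]
    · rw [h16 _ hd, hu.2 i, mul_one, mul_inv_cancel₀ (hd.2 i).ne']
    · exact (key1 hnr hEl hd hu.2 (hcond u hu)).trans (mul_le_mul_of_nonneg_left huR.1 h2.le)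
    · have hui := Subgroup.inv_mem _ hu
      have h3 : ((a m ^ T)⁻¹ * u * ((a m ^ T)⁻¹)⁻¹)⁻¹ =
          (a m ^ T)⁻¹ * u⁻¹ * ((a m ^ T)⁻¹)⁻¹ := by group
      rw [h3]
      exact (key1 hnr hEl hd hui.2 (hcond _ hui)).trans (mul_le_mul_of_nonneg_left huR.2 h2.le)

end Pool.Agent.MPEF.U.S
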