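import Pool.Agent.Lib.MP_ef3f0f_gt.U.B.Spec

/-!
# MP_ef3f0f_gt, Theorem U, Part B, module Vb: balls around `1` in `SL_n(ℝ)`
-/

set_option autoImplicit false

namespace Pool.Agent.MPEF.U.S

open Matrix Topology
open scoped Pointwise

private theorem Vb_cont (hnr : S_nr) (m : ℕ) :
    Continuous (fun g : P m => nr (g.1 - 1)) ∧ Continuous (fun g : P m => nr ((g⁻¹).1 - 1)) ∧
    Continuous (fun g : P m => nr g.1) ∧ Continuous (fun g : P m => nr (g⁻¹).1) := by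
  obtain ⟨-, -, -, -, -, -, -, -, -, -, -, -, hc⟩ := hnr (2 * m + 1)
  have h1 : Continuous (fun g : P m => g.1) := continuous_subtype_val
  have h2 : Continuous (fun g : P m => (g⁻¹).1) := h1.comp continuous_inv
  exact ⟨hc.comp (h1.sub continuous_const), hc.comp (h2.sub continuous_const), hc.comp h1, hc.comp h2⟩

private theorem Vb_cpt (hnr : S_nr) (m : ℕ) (η : ℝ) : IsCompact (Vb m η) := by
  obtain ⟨c1, c2, -, -⟩ := Vb_cont hnr m
  obtain ⟨-, -, -, -, -, -, hb, -, -, -, -, -, hc⟩ := hnr (2 * m + 1)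
  have hcl : IsClosed (Vb m η) := by
    have : Vb m η = {g | nr (g.1 - 1) ≤ η} ∩ {g | nr ((g⁻¹).1 - 1) ≤ η} := rfl
    rw [this]
    exact (isClosed_le c1 continuous_const).inter (isClosed_le c2 continuous_const)
  have hemb : IsClosedEmbedding (fun g : P m => (g.1 : Matrix (Fin (2 * m + 1)) (Fin (2 * m + 1)) ℝ)) := by
    refine IsClosed.isClosedEmbedding_subtypeVal ?_
    exact isClosed_eq (Continuous.matrix_det continuous_id) continuous_const
  have hbox : IsCompact {X : Matrix (Fin (2 * m + 1)) (Fin (2 * m + 1)) ℝ |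
      ∀ i j, X i j ∈ Set.Icc (-(η + 1)) (η + 1)} := by
    have h1 : IsCompact (Set.univ.pi fun _ : Fin (2 * m + 1) =>
        Set.univ.pi fun _ : Fin (2 * m + 1) => Set.Icc (-(η + 1)) (η + 1)) :=
      isCompact_univ_pi fun _ => isCompact_univ_pi fun _ => isCompact_Icc
    have h2 : {X : Matrix (Fin (2 * m + 1)) (Fin (2 * m + 1)) ℝ |
        ∀ i j, X i j ∈ Set.Icc (-(η + 1)) (η + 1)} = (Set.univ.pi fun _ : Fin (2 * m + 1) =>
        Set.univ.pi fun _ : Fin (2 * m + 1) => Set.Icc (-(η + 1)) (η + 1)) := by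
      ext X
      constructor
      · intro h i _ j _
        exact h i j
      · intro h i j
        exact h i (Set.mem_univ i) j (Set.mem_univ j)
    rw [h2]
    exact h1
  refine (hemb.isCompact_preimage hbox).of_isClosed_subset hcl ?_
  intro g hg
  show ∀ i j, g.1 i j ∈ Set.Icc (-(η + 1)) (η + 1)
  intro i j
  have h1 := (hb (g.1 - 1) i j).trans hg.1
  rw [Matrix.sub_apply] at h1
  have h2 : |(1 : Matrix (Fin (2 * m + 1)) (Fin (2 * m + 1)) ℝ) i j| ≤ 1 := by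
    rw [Matrix.one_apply]
    split_ifs <;> simp
  have h3 := abs_le.1 h1
  have h4 := abs_le.1 h2
  exact ⟨by linarith [h3.1, h4.1], by linarith [h3.2, h4.2]⟩

private theorem Vb_mul1 (hnr : S_nr) (m : ℕ) (X Y : Matrix (Fin (2 * m + 1)) (Fin (2 * m + 1)) ℝ)
    (a b : ℝ) (ha : 0 ≤ a) (h1 : nr (X - 1) ≤ a) (h2 : nr (Y - 1) ≤ b) :
    nr (X * Y - 1) ≤ (1 + a) * (1 + b) - 1 := by
  obtain ⟨h0, hadd, -, hmul, -, -, -, -, -, -, -, -, -⟩ := hnr (2 * m + 1)
  have e : X * Y - 1 = (X - 1) * (Y - 1) + (X - 1) + (Y - 1) := by noncomm_ring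
  rw [e]
  calc nr ((X - 1) * (Y - 1) + (X - 1) + (Y - 1))
      ≤ nr ((X - 1) * (Y - 1) + (X - 1)) + nr (Y - 1) := hadd _ _
    _ ≤ nr ((X - 1) * (Y - 1)) + nr (X - 1) + nr (Y - 1) := by linarith [hadd ((X - 1) * (Y - 1)) (X - 1)]
    _ ≤ nr (X - 1) * nr (Y - 1) + nr (X - 1) + nr (Y - 1) := by linarith [hmul (X - 1) (Y - 1)]
    _ ≤ a * b + a + b := by
        have := mul_le_mul h1 h2 (h0 _) ha
        linarith
    _ = (1 + a) * (1 + b) - 1 := by ring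

private theorem Vb_conj1 (hnr : S_nr) (m : ℕ) (K L X : Matrix (Fin (2 * m + 1)) (Fin (2 * m + 1)) ℝ)
    (a : ℝ) (hKL : K * L = 1) (h1 : nr (X - 1) ≤ a) :
    nr (K * X * L - 1) ≤ nr K * nr L * a := by
  obtain ⟨h0, -, -, hmul, -, -, -, -, -, -, -, -, -⟩ := hnr (2 * m + 1)
  have e : K * X * L - 1 = K * (X - 1) * L := by
    rw [mul_sub, mul_one, sub_mul, hKL]
  rw [e]
  calc nr (K * (X - 1) * L) ≤ nr (K * (X - 1)) * nr L := hmul _ _
    _ ≤ nr K * nr (X - 1) * nr L := mul_le_mul_of_nonneg_right (hmul _ _) (h0 _)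
    _ = nr K * nr L * nr (X - 1) := by ring
    _ ≤ nr K * nr L * a := mul_le_mul_of_nonneg_left h1 (mul_nonneg (h0 _) (h0 _))

theorem tVb : S_nr → S_Nb → S_Vb := by
  intro hnr hNb m
  obtain ⟨c1, c2, c3, c4⟩ := Vb_cont hnr m
  obtain ⟨h0, hadd, -, hmul, -, -, hb, hone, hzero, -, -, -, -⟩ := hnr (2 * m + 1)
  have hv1 : ((1 : P m)).1 = 1 := rfl
  refine ⟨?_, ?_, ?_, Vb_cpt hnr m, ?_, ?_, ?_, ?_, ?_, ?_⟩
  · intro η g hg
    refine ⟨hg.2, ?_⟩
    rw [inv_inv]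
    exact hg.1
  · intro η η' h g hg
    exact ⟨hg.1.trans h, hg.2.trans h⟩
  · intro η h
    refine ⟨?_, ?_⟩
    · rw [hv1, sub_self, hzero]
      exact h
    · rw [inv_one, hv1, sub_self, hzero]
      exact h
  · intro η h
    have o1 : IsOpen {g : P m | nr (g.1 - 1) < η} := isOpen_lt c1 continuous_const
    have o2 : IsOpen {g : P m | nr ((g⁻¹).1 - 1) < η} := isOpen_lt c2 continuous_const
    have m1 : (1 : P m) ∈ {g : P m | nr (g.1 - 1) < η} := by
      show nr ((1 : P m).1 - 1) < η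
      rw [hv1, sub_self, hzero]
      exact h
    have m2 : (1 : P m) ∈ {g : P m | nr ((g⁻¹).1 - 1) < η} := by
      show nr (((1 : P m)⁻¹).1 - 1) < η
      rw [inv_one, hv1, sub_self, hzero]
      exact h
    filter_upwards [o1.mem_nhds m1, o2.mem_nhds m2] with g hg1 hg2
    exact ⟨le_of_lt hg1, le_of_lt hg2⟩
  · intro U hU
    obtain ⟨ε, hε, h⟩ := (hNb m).1 U hU
    refine ⟨ε / 2, half_pos hε, fun g hg => h g fun i j => ?_⟩
    have h1 := (hb (g.1 - 1) i j).trans hg.1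
    rw [Matrix.sub_apply] at h1
    exact lt_of_le_of_lt h1 (half_lt_self hε)
  · intro η η' hη hη' g hg h hh
    refine ⟨?_, ?_⟩
    · exact Vb_mul1 hnr m g.1 h.1 η η' hη hg.1 hh.1
    · rw [_root_.mul_inv_rev]
      have := Vb_mul1 hnr m (h⁻¹).1 (g⁻¹).1 η' η hη' hh.2 hg.2
      rw [mul_comm (1 + η) (1 + η')]
      exact this
  · intro k g η hg
    have e1 : k.1 * (k⁻¹).1 = 1 := by
      have : k.1 * (k⁻¹).1 = (k * k⁻¹).1 := rfl
      rw [this, mul_inv_cancel]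
      rfl
    refine ⟨?_, ?_⟩
    · exact Vb_conj1 hnr m k.1 (k⁻¹).1 g.1 η e1 hg.1
    · have e2 : (k * g * k⁻¹)⁻¹ = k * g⁻¹ * k⁻¹ := by group
      rw [e2]
      exact Vb_conj1 hnr m k.1 (k⁻¹).1 (g⁻¹).1 η e1 hg.2
  · intro η g hg
    have key : ∀ X : Matrix (Fin (2 * m + 1)) (Fin (2 * m + 1)) ℝ, nr (X - 1) ≤ η →
        nr X ≤ 2 * m + 1 + η := by
      intro X hX
      have h1 := hadd 1 (X - 1)
      rw [add_sub_cancel, hone] at h1
      push_cast at h1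
      linarith
    exact ⟨key _ hg.1, key _ hg.2⟩
  · intro K hK
    obtain ⟨C1, hC1⟩ := (hK.image c1).bddAbove
    obtain ⟨C2, hC2⟩ := (hK.image c2).bddAbove
    obtain ⟨C3, hC3⟩ := (hK.image c3).bddAbove
    obtain ⟨C4, hC4⟩ := (hK.image c4).bddAbove
    have a1 : ∀ g ∈ K, nr (g.1 - 1) ≤ C1 := fun g hg => hC1 ⟨g, hg, rfl⟩
    have a2 : ∀ g ∈ K, nr ((g⁻¹).1 - 1) ≤ C2 := fun g hg => hC2 ⟨g, hg, rfl⟩
    have a3 : ∀ g ∈ K, nr g.1 ≤ C3 := fun g hg => hC3 ⟨g, hg, rfl⟩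
    have a4 : ∀ g ∈ K, nr (g⁻¹).1 ≤ C4 := fun g hg => hC4 ⟨g, hg, rfl⟩
    refine ⟨max 1 (max (max C1 C2) (max C3 C4)), le_max_left _ _, fun g hg => ⟨?_, ?_⟩,
      fun g hg => ⟨?_, ?_⟩⟩
    · exact (a1 g hg).trans ((le_max_left _ _).trans ((le_max_left _ _).trans (le_max_right _ _)))
    · exact (a2 g hg).trans ((le_max_right _ _).trans ((le_max_left _ _).trans (le_max_right _ _)))
    · exact (a3 g hg).trans ((le_max_left _ _).trans ((le_max_right _ _).trans (le_max_right _ _)))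
    · exact (a4 g hg).trans ((le_max_right _ _).trans ((le_max_right _ _).trans (le_max_right _ _)))

end Pool.Agent.MPEF.U.S
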