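import Pool.Agent.Lib.MP_ef3f0f_gt.U.B.Spec

/-!
# MP_ef3f0f_gt, Theorem U, Part B, module XOk: the axioms of the box data
-/

set_option autoImplicit false

namespace Pool.Agent.MPEF.U.S

open Matrix Topology
open scoped Pointwise

private theorem xok_mem (m : ℕ) {e : ℝ → P m} (he : e ∈ (xS m).e) : ∃ i j, e = tv m i j := by
  have he' : e ∈ (lows m ++ upps m).map fun p => tv m p.1 p.2 := he
  rw [List.mem_map] at he'
  obtain ⟨p, -, hp⟩ := he'
  exact ⟨p.1, p.2, hp.symm⟩

/-- **The axioms of the box data.** -/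
theorem tXOk : S_Vb → S_tv → S_Box → S_GenK → S_Sep → S_XOk := by
  intro hVb htv hBox hGen hSep m hm
  obtain ⟨v1, v2, -, v4, -⟩ := hVb m
  obtain ⟨t1, t2, -, -, -, t6⟩ := htv m
  refine
    { ec := ?_
      ea := ?_
      ne := ?_
      gen := hGen m hm
      Vi := v1
      Vm := v2
      Vc := ⟨Vb m 1, v4 1, subset_rfl⟩
      box := hBox m
      sep := hSep m }
  · intro e he
    obtain ⟨i, j, rfl⟩ := xok_mem m he
    exact t1 i j
  · intro e he
    obtain ⟨i, j, rfl⟩ := xok_mem m he
    exact t2 i j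
  · intro h
    have h1 : (0, 1) ∈ upps m := by
      rw [t6, Fin.lt_def]
      rw [Fin.val_zero, Fin.val_one']
      rw [Nat.mod_eq_of_lt (by omega)]
      exact one_pos
    have h2 : tv m 0 1 ∈ (xS m).e := by
      change tv m 0 1 ∈ (lows m ++ upps m).map fun p => tv m p.1 p.2
      exact List.mem_map.2 ⟨(0, 1), List.mem_append_right _ h1, rfl⟩
    rw [h] at h2
    exact List.not_mem_nil h2

end Pool.Agent.MPEF.U.S
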