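import Pool.Agent.Lib.MP_ef3f0f_gt.U.B.Spec

/-! MP_ef3f0f_gt, Theorem U, Part B, module nr: the l1 norm of matrices. -/

set_option autoImplicit false

namespace Pool.Agent.MPEF.U.S

open Matrix Topology
open scoped Pointwise

private theorem nr_c {n : ℕ} (X Y : Matrix (Fin n) (Fin n) ℝ) (c : ℝ)
    (h : ∀ i j, |X i j| ≤ c * |Y i j|) : nr X ≤ c * nr Y := by
  unfold nr
  rw [Finset.mul_sum]
  refine Finset.sum_le_sum fun i _ => ?_
  rw [Finset.mul_sum]
  exact Finset.sum_le_sum fun j _ => h i j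

private theorem nr_diag {n : ℕ} (d : Fin n → ℝ) : nr (Matrix.diagonal d) = ∑ i, |d i| := by
  unfold nr
  refine Finset.sum_congr rfl fun i _ => ?_
  rw [Finset.sum_eq_single i]
  · rw [Matrix.diagonal_apply_eq]
  · intro j _ hj
    rw [Matrix.diagonal_apply_ne _ (Ne.symm hj), abs_zero]
  · intro h
    exact absurd (Finset.mem_univ i) h

private theorem nr_row {n : ℕ} (X : Matrix (Fin n) (Fin n) ℝ) (k : Fin n) :
    ∑ j, |X k j| ≤ nr X := by
  unfold nr
  exact Finset.single_le_sum (f := fun i => ∑ j, |X i j|)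
    (fun i _ => Finset.sum_nonneg fun j _ => abs_nonneg _) (Finset.mem_univ k)

private theorem nr_mul {n : ℕ} (X Y : Matrix (Fin n) (Fin n) ℝ) : nr (X * Y) ≤ nr X * nr Y := by
  have h1 : ∀ i, ∑ j, |(X * Y) i j| ≤ (∑ k, |X i k|) * nr Y := by
    intro i
    have h2 : ∀ j, |(X * Y) i j| ≤ ∑ k, |X i k| * |Y k j| := by
      intro j
      rw [Matrix.mul_apply]
      refine (Finset.abs_sum_le_sum_abs _ _).trans (le_of_eq ?_)
      exact Finset.sum_congr rfl fun k _ => abs_mul _ _
    calc ∑ j, |(X * Y) i j| ≤ ∑ j, ∑ k, |X i k| * |Y k j| :=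
          Finset.sum_le_sum fun j _ => h2 j
      _ = ∑ k, |X i k| * ∑ j, |Y k j| := by
          rw [Finset.sum_comm]
          exact Finset.sum_congr rfl fun k _ => (Finset.mul_sum _ _ _).symm
      _ ≤ ∑ k, |X i k| * nr Y :=
          Finset.sum_le_sum fun k _ => mul_le_mul_of_nonneg_left (nr_row Y k) (abs_nonneg _)
      _ = _ := (Finset.sum_mul _ _ _).symm
  calc nr (X * Y) ≤ ∑ i, (∑ k, |X i k|) * nr Y := Finset.sum_le_sum fun i _ => h1 i
    _ = _ := (Finset.sum_mul _ _ _).symm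

theorem tnr : S_nr := by
  intro n
  have hmono : ∀ X Y : Matrix (Fin n) (Fin n) ℝ, (∀ i j, |X i j| ≤ |Y i j|) → nr X ≤ nr Y := by
    intro X Y h
    exact Finset.sum_le_sum fun i _ => Finset.sum_le_sum fun j _ => h i j
  have hadd : ∀ X Y : Matrix (Fin n) (Fin n) ℝ, nr (X + Y) ≤ nr X + nr Y := by
    intro X Y
    unfold nr
    rw [← Finset.sum_add_distrib]
    refine Finset.sum_le_sum fun i _ => ?_
    rw [← Finset.sum_add_distrib]
    exact Finset.sum_le_sum fun j _ => abs_add_le _ _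
  have hneg : ∀ X : Matrix (Fin n) (Fin n) ℝ, nr (-X) = nr X := by
    intro X
    unfold nr
    refine Finset.sum_congr rfl fun i _ => Finset.sum_congr rfl fun j _ => ?_
    rw [Matrix.neg_apply, abs_neg]
  refine ⟨?_, hadd, ?_, nr_mul, hneg, ?_, ?_, ?_, ?_, hmono, nr_c, nr_diag, ?_⟩
  · intro X
    exact Finset.sum_nonneg fun i _ => Finset.sum_nonneg fun j _ => abs_nonneg _
  · intro X Y
    rw [sub_eq_add_neg]
    have h := hadd X (-Y)
    rwa [hneg] at h
  · intro X Y
    rw [← hneg, neg_sub]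
  · intro X i j
    exact (Finset.single_le_sum (f := fun j => |X i j|) (fun j _ => abs_nonneg _)
      (Finset.mem_univ j)).trans (nr_row X i)
  · rw [← Matrix.diagonal_one, nr_diag]
    simp
  · unfold nr
    simp
  · unfold nr
    refine continuous_finsetSum _ fun i _ => continuous_finsetSum _ fun j _ => ?_
    exact (continuous_id.matrix_elem i j).abs

end Pool.Agent.MPEF.U.S
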