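import Pool.Agent.Lib.MP_ef3f0f_gt.U.B.Spec

/-!
# MP_ef3f0f_gt, Theorem U, Part B, module `tv`: elementary matrices
-/

set_option autoImplicit false

namespace Pool.Agent.MPEF.U.S

open Matrix Topology
open scoped Pointwise

theorem tv_of {m : ℕ} {i j : Fin (2 * m + 1)} (h : i ≠ j) (t : ℝ) :
    tv m i j t = Matrix.SpecialLinearGroup.transvection h t := dif_neg h

theorem tv_self (m : ℕ) (i : Fin (2 * m + 1)) (t : ℝ) : tv m i i t = 1 := dif_pos rfl

theorem tv_apply {m : ℕ} {i j : Fin (2 * m + 1)} (h : i ≠ j) (t : ℝ) (r s : Fin (2 * m + 1)) :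
    (tv m i j t).1 r s = (1 : Matrix (Fin (2 * m + 1)) (Fin (2 * m + 1)) ℝ) r s +
      (if i = r ∧ j = s then t else 0) := by
  rw [tv_of h, Matrix.SpecialLinearGroup.transvection_coe, Matrix.add_apply, Matrix.single_apply]

theorem tv_cont (m : ℕ) (i j : Fin (2 * m + 1)) : Continuous (tv m i j) := by
  by_cases h : i = j
  · subst h
    have : tv m i i = fun _ => 1 := funext fun t => tv_self m i t
    rw [this]
    exact continuous_const
  · refine continuous_induced_rng.2 (continuous_matrix fun r s => ?_)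
    have e : Continuous fun t : ℝ => (1 : Matrix (Fin (2 * m + 1)) (Fin (2 * m + 1)) ℝ) r s +
        (if i = r ∧ j = s then t else 0) := by
      split_ifs
      · exact continuous_const.add continuous_id
      · exact continuous_const.add continuous_const
    exact e.congr fun t => (tv_apply h t r s).symm

theorem tv_add (m : ℕ) (i j : Fin (2 * m + 1)) (s t : ℝ) :
    tv m i j (s + t) = tv m i j s * tv m i j t := by
  by_cases h : i = j
  · subst h
    rw [tv_self, tv_self, tv_self, mul_one]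
  · rw [tv_of h, tv_of h, tv_of h, Matrix.SpecialLinearGroup.transvection_add]

theorem tv_diag {m : ℕ} {i j : Fin (2 * m + 1)} (h : i ≠ j) (t : ℝ) (r : Fin (2 * m + 1)) :
    (tv m i j t).1 r r = 1 := by
  rw [tv_apply h, Matrix.one_apply_eq, if_neg, add_zero]
  rintro ⟨rfl, h2⟩
  exact h h2.symm

theorem tv_off {m : ℕ} {i j : Fin (2 * m + 1)} (h : i ≠ j) (t : ℝ) {r s : Fin (2 * m + 1)}
    (hrs : r ≠ s) (h' : ¬ (i = r ∧ j = s)) : (tv m i j t).1 r s = 0 := by
  rw [tv_apply h, Matrix.one_apply_ne hrs, if_neg h', add_zero]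

theorem ttv : S_tv := by
  intro m
  refine ⟨tv_cont m, tv_add m, fun i j t hij => ?_, fun i j t hij => ?_, fun i j => ?_,
    fun i j => ?_⟩
  · refine ⟨fun r s hrs => tv_off hij.ne' t hrs.ne ?_, tv_diag hij.ne' t⟩
    rintro ⟨rfl, rfl⟩
    exact absurd hij (not_lt.2 hrs.le)
  · refine ⟨fun r s hrs => tv_off hij.ne t hrs.ne' ?_, tv_diag hij.ne t⟩
    rintro ⟨rfl, rfl⟩
    exact absurd hij (not_lt.2 hrs.le)
  · unfold lows
    rw [List.mem_filter]
    simp
  · unfold upps
    rw [List.mem_filter]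
    simp

end Pool.Agent.MPEF.U.S
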