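import Pool.Agent.Lib.MP_ef3f0f_gt.U.S.All
import Pool.Agent.Lib.MP_ef3f0f_gt.U.B.nr
import Pool.Agent.Lib.MP_ef3f0f_gt.U.B.Vb
import Pool.Agent.Lib.MP_ef3f0f_gt.U.B.QLU
import Pool.Agent.Lib.MP_ef3f0f_gt.U.B.SqQ
import Pool.Agent.Lib.MP_ef3f0f_gt.U.B.tv
import Pool.Agent.Lib.MP_ef3f0f_gt.U.B.Bx
import Pool.Agent.Lib.MP_ef3f0f_gt.U.B.Box
import Pool.Agent.Lib.MP_ef3f0f_gt.U.B.Gen
import Pool.Agent.Lib.MP_ef3f0f_gt.U.B.GenK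
import Pool.Agent.Lib.MP_ef3f0f_gt.U.B.Sep
import Pool.Agent.Lib.MP_ef3f0f_gt.U.B.XOk

set_option autoImplicit false

/-!
# MP_ef3f0f_gt, Theorem U: the box data of `SL_n(ℝ)`
-/

namespace Pool.Agent.MPEF.U.S

private theorem cLUn : S_LUn :=
  tLUn (tLU (tMin tLmul tBlk)) tEl tNb (tInvP tLmul tRmul tSwap) tOp
private theorem cDp : S_Dp := tDp tEl (tD1 tEl)
private theorem cVb : S_Vb := tVb tnr tNb
private theorem cBox : S_Box :=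
  tBox tnr cVb (tQLU tnr cVb cLUn tEl) (tSqQ tnr tEl cDp) (tBx cVb ttv) tEl

/-- The box data of `SL_n(ℝ)` satisfy the axioms. -/
theorem xS_Ok (m : ℕ) (hm : 1 ≤ m) : (xS m).Ok :=
  tXOk cVb ttv cBox (tGenK ttv (tGen ttv) cVb) (tSep tnr cVb) m hm

end Pool.Agent.MPEF.U.S
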