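import Pool.Agent.Lib.MP_ef3f0f_gt.U.B.Spec

set_option autoImplicit false

namespace Pool.Agent.MPEF.U.S

open Matrix Topology
open scoped Pointwise

theorem tGenK : S_tv → S_Gen → S_Vb → S_GenK := by
  intro htv hGen hVb m hm K hK
  obtain ⟨h1, -, hgen⟩ := hGen m hm
  have hemb := Matrix.SpecialLinearGroup.isClosedEmbedding_val (n := Fin (2 * m + 1)) (R := ℝ)
  have : T2Space (P m) := hemb.isEmbedding.t2Space
  have : LocallyCompactSpace (Matrix (Fin (2 * m + 1)) (Fin (2 * m + 1)) ℝ) :=
    inferInstanceAs (LocallyCompactSpace (Fin (2 * m + 1) → Fin (2 * m + 1) → ℝ))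
  have : LocallyCompactSpace (P m) := hemb.locallyCompactSpace
  set E : Set (P m) := (xS m).E with hE
  have hec : ∀ e ∈ (xS m).e, Continuous e := by
    intro e he
    change e ∈ (lows m ++ upps m).map (fun p => tv m p.1 p.2) at he
    obtain ⟨p, -, rfl⟩ := List.mem_map.1 he
    exact (htv m).1 p.1 p.2
  have hcE : IsCompact E := by
    have h2 : E = ⋃ e ∈ {e | e ∈ (xS m).e}, e '' Set.Icc (-1 : ℝ) 1 := by
      ext g
      simp only [Set.mem_iUnion, Set.mem_image, Set.mem_ofPred_eq]
      constructor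
      · rintro ⟨e, he, s, hs, rfl⟩
        exact ⟨e, he, s, abs_le.1 hs, rfl⟩
      · rintro ⟨e, he, s, hs, rfl⟩
        exact ⟨e, he, s, abs_le.2 hs, rfl⟩
    rw [h2]
    exact (List.finite_toSet _).isCompact_biUnion fun e he => isCompact_Icc.image (hec e he)
  have hcp : ∀ L : ℕ, IsCompact (E ^ L) := by
    intro L
    induction L with
    | zero =>
      rw [pow_zero]
      exact isCompact_singleton
    | succ L ih =>
      rw [pow_succ]
      exact ih.mul hcE
  have hU : ⋃ L : ℕ, E ^ L = Set.univ := by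
    rw [Set.eq_univ_iff_forall]
    intro g
    obtain ⟨L, hL⟩ := hgen g
    exact Set.mem_iUnion.2 ⟨L, hL⟩
  obtain ⟨L₀, g, hg⟩ := nonempty_interior_of_iUnion_of_closed (fun L => (hcp L).isClosed) hU
  have hcov : K ⊆ ⋃ L : ℕ, interior (E ^ L) := by
    intro x _
    obtain ⟨L', hL'⟩ := hgen (g⁻¹ * x)
    refine Set.mem_iUnion.2 ⟨L₀ + L', ?_⟩
    have h3 : interior (E ^ L₀) * E ^ L' ⊆ interior (E ^ (L₀ + L')) := by
      refine interior_maximal ?_ isOpen_interior.mul_right
      rw [pow_add]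
      exact Set.mul_subset_mul_right interior_subset
    apply h3
    exact ⟨g, hg, g⁻¹ * x, hL', mul_inv_cancel_left g x⟩
  have hmono : Monotone fun L : ℕ => interior (E ^ L) := fun L L' h =>
    interior_mono (Set.pow_subset_pow_right h1 h)
  obtain ⟨L, hL⟩ := hK.elim_directed_cover _ (fun L => isOpen_interior) hcov
    hmono.directed_le
  exact ⟨L, hL.trans interior_subset⟩

end Pool.Agent.MPEF.U.S
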