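import Pool.Agent.Lib.MP_ef3f0f_gt.U.J.Defs
import Pool.Agent.Lib.MP_ef3f0f_gt.U.S.Spec

/-!
# MP_ef3f0f_gt, Theorem U, Part B: the box data `xS m : BX (P m)` for `P m = SL_{2m+1}(ℝ)`

Every statement is a `def S_X : Prop` with its proof in the docstring. A module `U/B/X.lean` proves
`theorem tX : S_Y → ... → S_X` (the hypotheses are the statements it uses, in the order of the docstring), in the
namespace `Pool.Agent.MPEF.U.S`. Notation: `n = 2 m + 1`, entries of `g : P m` are `g.1 i j`; `nr` is the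
`ℓ¹` norm of a matrix (`nr 1 = n`), `Vb m η` the ball of radius `η` around `1`. `S_LUn`, `S_El`, `S_Dp` are
statements of `U/S/Spec.lean` (helper70). Products of elements near `1`: with `φ g = 1 + nr (g.1 - 1)` one has
`φ (g h) ≤ φ g * φ h`, because `g h - 1 = (g - 1) (h - 1) + (g - 1) + (h - 1)`.
-/

set_option autoImplicit false

namespace Pool.Agent.MPEF.U.S

open Matrix Topology
open scoped Pointwise

/-- The `ℓ¹` norm of a matrix. -/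
def nr {n : ℕ} (X : Matrix (Fin n) (Fin n) ℝ) : ℝ := ∑ i, ∑ j, |X i j|

/-- The elementary matrix `1 + t E_ij` (`1` if `i = j`). -/
noncomputable def tv (m : ℕ) (i j : Fin (2 * m + 1)) (t : ℝ) : P m :=
  if h : i = j then 1 else Matrix.SpecialLinearGroup.transvection h t

/-- The pairs `(i, j)` with `j < i`. -/
def lows (m : ℕ) : List (Fin (2 * m + 1) × Fin (2 * m + 1)) :=
  (List.finRange (2 * m + 1) ×ˢ List.finRange (2 * m + 1)).filter fun p => p.2 < p.1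

/-- The pairs `(i, j)` with `i < j`. -/
def upps (m : ℕ) : List (Fin (2 * m + 1) × Fin (2 * m + 1)) :=
  (List.finRange (2 * m + 1) ×ˢ List.finRange (2 * m + 1)).filter fun p => p.1 < p.2

/-- The ball of radius `η` around `1`. -/
def Vb (m : ℕ) (η : ℝ) : Set (P m) := {g | nr (g.1 - 1) ≤ η ∧ nr ((g⁻¹).1 - 1) ≤ η}

/-- The box data. -/
noncomputable def xS (m : ℕ) : BX (P m) where
  a := a m
  e := (lows m ++ upps m).map fun p => tv m p.1 p.2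
  V := Vb m

/-- (70 lines) **The norm.** Uses nothing. PROOF. Triangle inequality; `|∑ k, X i k * Y k j| ≤ ∑ k, |X i k| |Y k j|` and
`|Y k j| ≤ ∑ k', |Y k' j|`. -/
def S_nr : Prop := ∀ n : ℕ,
  (∀ X : Matrix (Fin n) (Fin n) ℝ, 0 ≤ nr X) ∧
  (∀ X Y : Matrix (Fin n) (Fin n) ℝ, nr (X + Y) ≤ nr X + nr Y) ∧
  (∀ X Y : Matrix (Fin n) (Fin n) ℝ, nr (X - Y) ≤ nr X + nr Y) ∧
  (∀ X Y : Matrix (Fin n) (Fin n) ℝ, nr (X * Y) ≤ nr X * nr Y) ∧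
  (∀ X : Matrix (Fin n) (Fin n) ℝ, nr (-X) = nr X) ∧
  (∀ X Y : Matrix (Fin n) (Fin n) ℝ, nr (X - Y) = nr (Y - X)) ∧
  (∀ (X : Matrix (Fin n) (Fin n) ℝ) (i j), |X i j| ≤ nr X) ∧
  nr (1 : Matrix (Fin n) (Fin n) ℝ) = n ∧ nr (0 : Matrix (Fin n) (Fin n) ℝ) = 0 ∧
  (∀ X Y : Matrix (Fin n) (Fin n) ℝ, (∀ i j, |X i j| ≤ |Y i j|) → nr X ≤ nr Y) ∧
  (∀ (X Y : Matrix (Fin n) (Fin n) ℝ) (c : ℝ), (∀ i j, |X i j| ≤ c * |Y i j|) →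
    nr X ≤ c * nr Y) ∧
  (∀ d : Fin n → ℝ, nr (Matrix.diagonal d) = ∑ i, |d i|) ∧
  Continuous (nr : Matrix (Fin n) (Fin n) ℝ → ℝ)

/-- (140 lines) **The balls.** Uses `S_nr`, `S_Nb`. PROOF. (4) closed and bounded: the image in the matrices is a closed
bounded set (`g⁻¹` is the adjugate; `det = 1` is closed; compare `U/S/Top.lean`), or `Vb` is a closed subset (for `Vb η`) of a compact
set; (5), (6) by `S_Nb` and continuity of the inverse. (7): `φ (g h) ≤ φ g φ h`, the same for `(g h)⁻¹ = h⁻¹ g⁻¹`. (8): `k g k⁻¹ - 1 = k (g - 1) k⁻¹`.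
(9) `nr (g.1) ≤ nr 1 + nr (g - 1)`. (10) `nr` is bounded on compact sets, also for inverses. -/
def S_Vb : Prop := ∀ m : ℕ,
  (∀ η, ∀ g ∈ Vb m η, g⁻¹ ∈ Vb m η) ∧ (∀ η η', η ≤ η' → Vb m η ⊆ Vb m η') ∧
  (∀ η, 0 ≤ η → (1 : P m) ∈ Vb m η) ∧ (∀ η, IsCompact (Vb m η)) ∧
  (∀ η, 0 < η → Vb m η ∈ 𝓝 (1 : P m)) ∧ (∀ U ∈ 𝓝 (1 : P m), ∃ η : ℝ, 0 < η ∧ Vb m η ⊆ U) ∧
  (∀ η η' : ℝ, 0 ≤ η → 0 ≤ η' → ∀ g ∈ Vb m η, ∀ h ∈ Vb m η',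
    g * h ∈ Vb m ((1 + η) * (1 + η') - 1)) ∧
  (∀ (k g : P m) (η : ℝ), g ∈ Vb m η → k * g * k⁻¹ ∈ Vb m (nr k.1 * nr (k⁻¹).1 * η)) ∧
  (∀ η, ∀ g ∈ Vb m η, nr g.1 ≤ 2 * m + 1 + η ∧ nr (g⁻¹).1 ≤ 2 * m + 1 + η) ∧
  ∀ K : Set (P m), IsCompact K → ∃ R : ℝ, 1 ≤ R ∧ K ⊆ Vb m R ∧ ∀ g ∈ K, nr g.1 ≤ R ∧ nr (g⁻¹).1 ≤ R

/-- (150 lines) **Quantitative LU decomposition near `1`.** Uses `S_nr`, `S_Vb`, `S_LUn`, `S_El`. PROOF. `S_LUn` (1) with `U = Vb 1`: for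
`g ∈ Vb η`, `η ≤ η₀`: `g = x α u`, `x, α, u ∈ Vb 1`, so `nr` of `x`, `x⁻¹`, .. is `≤ N = 2 m + 2`. Now `x⁻¹ (g - 1) = α u - x⁻¹`. For `j < i` the
entry of `α u` is zero, so `|(x⁻¹ - 1) i j| ≤ |(x⁻¹ (g - 1)) i j|`; the other entries of `x⁻¹ - 1` are zero (`x⁻¹ ∈ Nm`): `nr (x⁻¹ - 1) ≤ N η`,
`nr (x - 1) = nr (x (1 - x⁻¹)) ≤ N² η`. `α u - 1 = x⁻¹ (g - 1) + (x⁻¹ - 1)`: `nr ≤ 2 N η`; its diagonal entries are `α_ii - 1` (`u ∈ Np`); `|log t| ≤ 2 |t - 1|` for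
`|t - 1| ≤ 1/2`. `α - 1` and `α⁻¹ - 1` are diagonal: `nr ≤ 4 n N η`. `u - 1 = α⁻¹ (α u - 1) + (α⁻¹ - 1)`, `u⁻¹ - 1 = - u⁻¹ (u - 1)`.
`C` large, `C ≥ 1/η₀`. -/
def S_QLU : Prop := ∀ m : ℕ, ∃ C : ℝ, 1 ≤ C ∧ ∀ η : ℝ, 0 < η → C * η ≤ 1 → ∀ g ∈ Vb m η,
  ∃ x ∈ Nm m, ∃ α ∈ A m, ∃ u ∈ Np m, g = x * α * u ∧ x ∈ Vb m (C * η) ∧ u ∈ Vb m (C * η) ∧
    ∀ i, |Real.log (α.1 i i)| ≤ C * η

/-- (80 lines) **Quantitative squeezing.** Uses `S_nr`, `S_El`, `S_Dp`. PROOF. `(d x d⁻¹) i j = d_i x_ij / d_j` (`S_El`), for `d = α a^T`,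
`j < i`: `d_i / d_j = (α_i / α_j) ((a^T)_i / (a^T)_j) ≤ e² 2^(-T) ≤ 8 (1/2)^T` (`a ^ T ∈ Dp T`: `S_Dp`). The diagonal entries of `x - 1` are zero. The inverse:
`d x⁻¹ d⁻¹`, `x⁻¹ ∈ Nm`. The second one: `(a^s)⁻¹ u a^s` has the entries `u_ij (a^s)_j / (a^s)_i`, `i < j`. -/
def S_SqQ : Prop := ∀ (m T : ℕ) (R : ℝ),
  (∀ α ∈ A m, (∀ i, |Real.log (α.1 i i)| ≤ 1) → ∀ x ∈ Nm m, x ∈ Vb m R →
    (α * a m ^ T) * x * (α * a m ^ T)⁻¹ ∈ Nm m ∧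
    (α * a m ^ T) * x * (α * a m ^ T)⁻¹ ∈ Vb m (8 * (1 / 2) ^ T * R)) ∧
  ∀ u ∈ Np m, u ∈ Vb m R → (a m ^ T)⁻¹ * u * a m ^ T ∈ Np m ∧
    (a m ^ T)⁻¹ * u * a m ^ T ∈ Vb m ((1 / 2) ^ T * R)

/-- (80 lines) **Elementary matrices.** Uses nothing. PROOF. `Matrix.SpecialLinearGroup.transvection_add`; continuity of the entries
(topology of `P m` induced from the matrices); `tv i j ∈ Nm` for `j < i`, `∈ Np` for `i < j` (entries). -/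
def S_tv : Prop := ∀ m : ℕ,
  (∀ i j, Continuous (tv m i j)) ∧ (∀ i j s t, tv m i j (s + t) = tv m i j s * tv m i j t) ∧
  (∀ i j t, j < i → tv m i j t ∈ Nm m) ∧ (∀ i j t, i < j → tv m i j t ∈ Np m) ∧
  (∀ i j, (i, j) ∈ lows m ↔ j < i) ∧ ∀ i j, (i, j) ∈ upps m ↔ i < j

/-- (70 lines) **The box.** Uses `S_Vb`, `S_tv`. PROOF. `List.map_append`, `List.prod_append`: `B` is the product of the two products of sets. For a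
list of pairs `l`: the product of the compact sets `tv i j '' [0,1]` is compact (induction on the list, `IsCompact.mul`), and contained in
`Nm` resp. `Np` (`S_tv`, products of elements of a subgroup). `S_Vb` (10). -/
def S_Bx : Prop := ∀ m : ℕ, ∃ R : ℝ, 1 ≤ R ∧ ∀ q ∈ (xS m).B, ∃ l ∈ Nm m, ∃ u ∈ Np m,
  l ∈ Vb m R ∧ u ∈ Vb m R ∧ q = l * u

/-- (220 lines) **The box lemma.** Uses `S_nr`, `S_Vb`, `S_QLU`, `S_SqQ`, `S_Bx`, `S_El`. PROOF. `R` from `S_Bx`, `C₁` from `S_QLU`, `n' = 2 m + 1 + R`,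
`R₃ = 2 (1 + R) - 1`, `η = R₃ 2^(-s)`, `η₁ = C₁ n'² η` (as a function of `s`: constant times `2^(-s)`), `ε = 8 R₃ 2^(-s)`. `C` large such that `C k 2^(-s) ≤ 1` gives
`η₁ ≤ 1`, `k η₁ ≤ 1`, `k ε ≤ 1`. By induction on `j ≤ k`: for `q ∈ (B * {a^s})^j` (`pow_succ`): `a^s₀ q = y (α a^(s₀ + j s)) v` with `y ∈ Nm`,
`y ∈ Vb ((1 + ε)^j - 1)`, `α ∈ A`, `|log α_i| ≤ j η₁`, `v ∈ Np ∩ Vb η` (`j = 0`: `y = α = v = 1`). Step: multiply by `l u a^s` (`S_Bx`).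
`h = l⁻¹ v l ∈ Vb (n'² η)` (`S_Vb` (8), (9)), so `h = x β u₁` (`S_QLU`; `C₁ n'² η ≤ 1`), `x, u₁ ∈ Vb η₁ ⊆ Vb 1`, `|log β_i| ≤ η₁`. Then
`v l u a^s = l h u a^s = (l x) (β a^s) ((a^s)⁻¹ (u₁ u) a^s)`, and `(α a^T) (l x) (β a^s) = c (α β a^(T+s))` with `T = s₀ + j s ≥ s`,
`c = (α a^T) (l x) (α a^T)⁻¹ ∈ Nm ∩ Vb (8 2^(-T) R₃) ⊆ Vb ε` (`S_SqQ`; `l x ∈ Vb (2 (1 + R) - 1)` by `S_Vb` (7)); `y c ∈ Vb ((1+ε)^(j+1) - 1)`; the new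
`v` is `(a^s)⁻¹ (u₁ u) a^s ∈ Vb (2^(-s) R₃)` (`S_SqQ`). (`A` is commutative, `a ∈ A`, logarithms add.) At the end `g = y α`, `g' = v`:
`(1+ε)^k - 1 ≤ 2 k ε` (`k ε ≤ 1`), `nr (α^{±1} - 1) ≤ 2 n k η₁` (`|e^t - 1| ≤ 2 |t|`, `|t| ≤ 1`), so `g ∈ Vb (C k 2^(-s))` by `S_Vb` (7). -/
def S_Box : Prop := ∀ m : ℕ, ∃ C : ℝ, 0 < C ∧ ∀ s₀ s k : ℕ, 1 ≤ s → 1 ≤ k → s ≤ s₀ →
  C * k * (1 / 2) ^ s ≤ 1 → ∀ q ∈ ((xS m).B * {a m ^ s}) ^ k,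
    ∃ g ∈ Vb m (C * k * (1 / 2) ^ s), ∃ g' ∈ Vb m (C * k * (1 / 2) ^ s),
      a m ^ s₀ * q = g * a m ^ (s₀ + k * s) * g'

/-- (120 lines) **Generation.** Uses `S_tv`. PROOF. `E` contains `1` (`m ≥ 1`, `tv 0 = 1`) and is closed under inverses; all `tv i j t` are in some `E^L`:
`tv i j t = (tv i j (t / L))^L`, `|t| ≤ L`; (`E^L` increasing). `Matrix.SpecialLinearGroup.diagonal_transvection_induction'` for
`M ↦ ∃ L, M ∈ E^L` (`Nontrivial (Fin (2m+1))`), where `diag2n hij c` (entries `c` at `i`, `c⁻¹` at `j`) is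
`tv j i ((1-c)/c) * tv i j 1 * tv j i (c-1) * tv i j (-1/c)` (check: in the plane of `i, j` with rows `(i, j)`:
`[[1,0],[(1-c)/c,1]] [[1,1],[0,1]] [[1,0],[c-1,1]] [[1,-1/c],[0,1]] = [[c,0],[0,1/c]]`). -/
def S_Gen : Prop := ∀ m : ℕ, 1 ≤ m → (1 : P m) ∈ (xS m).E ∧ (∀ g ∈ (xS m).E, g⁻¹ ∈ (xS m).E) ∧
  ∀ g : P m, ∃ L : ℕ, g ∈ (xS m).E ^ L

/-- (100 lines) **Bounded generation of compact sets.** Uses `S_tv`, `S_Gen`, `S_Vb`. PROOF. `E` is compact (finite union of the images of `[-1,1]`), so the `E^L` are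
compact and increasing, their union is `P m` (`S_Gen`). `P m` is locally compact (`S_Vb` (4), (5): a compact neighbourhood of `1`) and Hausdorff, so Baire
(`BaireSpace.of_t2Space_locallyCompactSpace`, `nonempty_interior_of_iUnion_of_closed`): some `E^L` has an interior point `g`; `interior (E^L) * g⁻¹` is an open
neighbourhood of `1` in `E^(L + L')`. So all points of `P m` are in `⋃ interior (E^L)`; cover the compact set `K`. -/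
def S_GenK : Prop := ∀ m : ℕ, 1 ≤ m → ∀ K : Set (P m), IsCompact K → ∃ L : ℕ, K ⊆ (xS m).E ^ L

/-- (150 lines) **Lipschitz bump functions.** Uses `S_nr`, `S_Vb`. PROOF. `Q = ∅`: `k = 0`. Else let `Q' = {q.1 | q ∈ Q}` (compact set of matrices) and
`δ g = inf_{q ∈ Q} nr (g.1 - q.1)` (or the distance of `Matrix` as `Fin n → Fin n → ℝ` with the sup norm: `Metric.infDist g.1 Q'`;
`dist X Y ≤ nr (X - Y)`). There is `ε > 0` with `δ g < ε → g ∈ O`: otherwise `g_i ∉ O`, `δ g_i → 0`, a subsequence of `g_i.1` converges to a point of `Q'`,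
contradiction to `O` open (`P m → matrices` is an embedding: `Topology.IsInducing.subtypeVal`; or `Disjoint.exists_thickenings`, `IsCompact.exists_thickening_subset_open`).
`k g = ENNReal.ofReal (max 0 (1 - δ g / ε))`. `|k g - k g'| ≤ nr (g.1 - g'.1) / ε`. Lipschitz: if `k q ≠ 0` or `k (q g) ≠ 0` then `nr q ≤ R'` (`Q'` is
bounded, `q = (q g) g⁻¹`), and `nr (q g - q) ≤ nr q η`; otherwise both are `0`. The same for `g q`. -/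
def S_Sep : Prop := ∀ (m : ℕ) (Q O : Set (P m)), IsCompact Q → IsOpen O → Q ⊆ O →
  ∃ k : P m → ENNReal, Continuous k ∧ (xS m).Lip k ∧ (∀ g, k g ≤ 1) ∧ (∀ g ∈ Q, k g = 1) ∧
    ∀ g, g ∉ O → k g = 0

/-- (40 lines) **The end.** Uses (in this order) `S_Vb`, `S_tv`, `S_Box`, `S_GenK`, `S_Sep`. PROOF. `ne`: `(0, 1) ∈ upps` for `m ≥ 1`. -/
def S_XOk : Prop := ∀ m : ℕ, 1 ≤ m → (xS m).Ok

end Pool.Agent.MPEF.U.S
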